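import Mathlib
import Pool.Agent.TH314.ET.Mont

/-!
# Moments of exponential sums over the fractions with a given denominator

If the support of `α` meets only `ν q` residue classes modulo `q` for the pairwise coprime moduli
`q ∈ Q`, then the sum of `‖Sf α (a / M + θ)‖ ^ (2 h)` over `a` modulo `M = ∏ q` is at least
`∏ (1 + ((q - ν q) / ν q) ^ h / (q - 1) ^ (h - 1)) ‖Sf α θ‖ ^ (2 h)`.
-/

set_option autoImplicit false

open Finset

namespace Pool.Agent.Q146.LV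

open Pool.Agent.Helper112 Pool.Agent.TH314.ET

variable {α : ℕ → ℂ}

/-- splitting of all fractions with denominator `p q` -/
theorem split_all {p q : ℕ} (hpq : p.Coprime q) (hp : 0 < p) (hq : 0 < q) (θ : ℝ) (e : ℕ) :
    ∑ b ∈ range q, ∑ c ∈ range p, ‖Sf α (c / p + (b / q + θ))‖ ^ e ≤
    ∑ a ∈ range (p * q), ‖Sf α (a / (p * q : ℕ) + θ)‖ ^ e := by
  classical
  have hpq0 : 0 < p * q := Nat.mul_pos hp hq
  have hp' : (p : ℝ) ≠ 0 := by positivity
  have hq' : (q : ℝ) ≠ 0 := by positivity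
  rw [← Finset.sum_product']
  set S := (range q) ×ˢ (range p) with hS
  set f : ℕ × ℕ → ℕ := fun x => (x.1 * p + x.2 * q) % (p * q) with hf
  have hval : ∀ x : ℕ × ℕ, ‖Sf α (x.2 / p + (x.1 / q + θ))‖ ^ e =
      ‖Sf α (((f x : ℕ) : ℝ) / (p * q : ℕ) + θ)‖ ^ e := by
    intro x
    have h1 : ((x.1 * p + x.2 * q : ℕ) : ℝ) =
        ((p * q : ℕ) : ℝ) * (((x.1 * p + x.2 * q) / (p * q) : ℕ) : ℝ) + ((f x : ℕ) : ℝ) := by
      rw [hf]
      exact_mod_cast (Nat.div_add_mod (x.1 * p + x.2 * q) (p * q)).symm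
    have h2 : (x.2 : ℝ) / p + (x.1 / q + θ) =
        (((f x : ℕ) : ℝ) / (p * q : ℕ) + θ) + (((x.1 * p + x.2 * q) / (p * q) : ℕ) : ℝ) := by
      push_cast at h1 ⊢
      field_simp
      nlinarith [h1]
    rw [h2, Sf_add_nat]
  have hinj : Set.InjOn f S := by
    rintro ⟨b, c⟩ hx ⟨b', c'⟩ hy hxy
    simp only [hS, Finset.coe_product, Set.mem_prod, Finset.mem_coe, mem_range] at hx hy
    have h1 : b * p + c * q ≡ b' * p + c' * q [MOD p * q] := hxy
    have h2 : b * p ≡ b' * p [MOD q] := by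
      have h3 := h1.of_dvd (Dvd.intro_left p rfl : q ∣ p * q)
      have h4 : b * p + c * q ≡ b * p [MOD q] := by simp [Nat.ModEq]
      have h5 : b' * p + c' * q ≡ b' * p [MOD q] := by simp [Nat.ModEq]
      exact h4.symm.trans (h3.trans h5)
    have h3 : b ≡ b' [MOD q] := Nat.ModEq.cancel_right_of_coprime (by
      rw [Nat.gcd_comm]; exact hpq) h2
    have h4 : c * q ≡ c' * q [MOD p] := by
      have h3 := h1.of_dvd (Dvd.intro q rfl : p ∣ p * q)
      have h4 : b * p + c * q ≡ c * q [MOD p] := by simp [Nat.ModEq]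
      have h5 : b' * p + c' * q ≡ c' * q [MOD p] := by simp [Nat.ModEq]
      exact h4.symm.trans (h3.trans h5)
    have h5 : c ≡ c' [MOD p] := Nat.ModEq.cancel_right_of_coprime hpq h4
    have h6 : b = b' := Nat.ModEq.eq_of_lt_of_lt h3 hx.1 hy.1
    have h7 : c = c' := Nat.ModEq.eq_of_lt_of_lt h5 hx.2 hy.2
    rw [h6, h7]
  have hmaps : S.image f ⊆ range (p * q) := by
    intro a ha
    obtain ⟨⟨b, c⟩, hx, rfl⟩ := Finset.mem_image.1 ha
    rw [mem_range]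
    exact Nat.mod_lt _ hpq0
  calc ∑ x ∈ S, ‖Sf α (x.2 / p + (x.1 / q + θ))‖ ^ e
      = ∑ x ∈ S, ‖Sf α (((f x : ℕ) : ℝ) / (p * q : ℕ) + θ)‖ ^ e :=
        Finset.sum_congr rfl fun x _ => hval x
    _ = ∑ a ∈ S.image f, ‖Sf α ((a : ℝ) / (p * q : ℕ) + θ)‖ ^ e := by
        rw [Finset.sum_image (f := fun a : ℕ => ‖Sf α ((a : ℝ) / (p * q : ℕ) + θ)‖ ^ e) hinj]
    _ ≤ _ := Finset.sum_le_sum_of_subset_of_nonneg hmaps fun _ _ _ => by positivity

/-- the local factor of order `n + 1` of a modulus `q` of which `r` classes are occupied -/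
noncomputable def fac (n : ℕ) (q r : ℝ) : ℝ := 1 + ((q - r) / r) ^ (n + 1) / (q - 1) ^ n

theorem fac_ge_one (n : ℕ) {q r : ℕ} (hq : 2 ≤ q) (hr : r ≤ q) : 1 ≤ fac n q r := by
  unfold fac
  have h1 : (2 : ℝ) ≤ q := by exact_mod_cast hq
  have h2 : (r : ℝ) ≤ q := by exact_mod_cast hr
  have h3 : 0 ≤ ((q : ℝ) - r) / r := div_nonneg (by linarith) (Nat.cast_nonneg _)
  have h4 : 0 ≤ (q : ℝ) - 1 := by linarith
  have : 0 ≤ (((q : ℝ) - r) / r) ^ (n + 1) / (q - 1) ^ n := by positivity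
  linarith

/-- one modulus -/
theorem one_mod (hα : Summable fun n => ‖α n‖) (n : ℕ) {q : ℕ} (hq : 2 ≤ q) (R : Finset ℕ)
    (hR : ∀ n, α n ≠ 0 → n % q ∈ R) (hR0 : 0 < R.card) (hRq : R.card ≤ q) (θ : ℝ) :
    fac n q R.card * ‖Sf α θ‖ ^ (2 * (n + 1)) ≤
      ∑ a ∈ range q, ‖Sf α (a / q + θ)‖ ^ (2 * (n + 1)) := by
  have hq0 : 0 < q := by omega
  have h1 := sum_shift_ge hα q hq0 R hR θ
  have hc : (0 : ℝ) < R.card := by exact_mod_cast hR0
  have hsplit : ∀ e : ℕ, ∑ a ∈ range q, ‖Sf α (a / q + θ)‖ ^ e =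
      ‖Sf α θ‖ ^ e + ∑ a ∈ (range q).erase 0, ‖Sf α (a / q + θ)‖ ^ e := by
    intro e
    rw [← Finset.add_sum_erase _ _ (mem_range.2 hq0)]
    simp
  rw [hsplit] at h1 ⊢
  have h2 : ((q : ℝ) - R.card) / R.card * ‖Sf α θ‖ ^ 2 ≤
      ∑ a ∈ (range q).erase 0, ‖Sf α (a / q + θ)‖ ^ 2 := by
    rw [div_mul_eq_mul_div, div_le_iff₀ hc]
    nlinarith
  have hq1 : (0 : ℝ) < (q : ℝ) - 1 := by
    have : (2 : ℝ) ≤ q := by exact_mod_cast hq
    linarith
  have hg : 0 ≤ ((q : ℝ) - R.card) / R.card := by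
    have : ((R.card : ℕ) : ℝ) ≤ q := by exact_mod_cast hRq
    exact div_nonneg (by linarith) (Nat.cast_nonneg _)
  have h4 : (∑ a ∈ (range q).erase 0, ‖Sf α (a / q + θ)‖ ^ 2) ^ (n + 1) ≤
      ((q : ℝ) - 1) ^ n * ∑ a ∈ (range q).erase 0, ‖Sf α (a / q + θ)‖ ^ (2 * (n + 1)) := by
    have h5 := pow_sum_le_card_mul_sum_pow (s := (range q).erase 0)
      (f := fun a : ℕ => ‖Sf α (a / q + θ)‖ ^ 2) (fun a _ => by positivity) n
    have h6 : (((range q).erase 0).card : ℝ) = (q : ℝ) - 1 := by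
      rw [Finset.card_erase_of_mem (mem_range.2 hq0), card_range,
        Nat.cast_sub (by omega), Nat.cast_one]
    rw [h6] at h5
    refine h5.trans (le_of_eq ?_)
    congr 1
    exact Finset.sum_congr rfl fun a _ => by rw [← pow_mul]
  have h5 : ((((q : ℝ) - R.card) / R.card) * ‖Sf α θ‖ ^ 2) ^ (n + 1) ≤
      ((q : ℝ) - 1) ^ n * ∑ a ∈ (range q).erase 0, ‖Sf α (a / q + θ)‖ ^ (2 * (n + 1)) :=
    (pow_le_pow_left₀ (by positivity) h2 (n + 1)).trans h4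
  unfold fac
  rw [add_mul, one_mul]
  have h6 : (((q : ℝ) - R.card) / R.card) ^ (n + 1) / (q - 1) ^ n * ‖Sf α θ‖ ^ (2 * (n + 1)) ≤
      ∑ a ∈ (range q).erase 0, ‖Sf α (a / q + θ)‖ ^ (2 * (n + 1)) := by
    rw [div_mul_eq_mul_div, div_le_iff₀ (by positivity)]
    calc (((q : ℝ) - R.card) / R.card) ^ (n + 1) * ‖Sf α θ‖ ^ (2 * (n + 1)) =
        ((((q : ℝ) - R.card) / R.card) * ‖Sf α θ‖ ^ 2) ^ (n + 1) := by rw [mul_pow, ← pow_mul]
      _ ≤ _ := h5
      _ = _ := by ring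
  linarith

/-- all fractions with denominator a product of pairwise coprime moduli -/
theorem all_mod (hα : Summable fun n => ‖α n‖) (n : ℕ) (R : ℕ → Finset ℕ) (Q : Finset ℕ) :
    (∀ q ∈ Q, 2 ≤ q ∧ (∀ n, α n ≠ 0 → n % q ∈ R q) ∧ 0 < (R q).card ∧ (R q).card ≤ q) →
    (∀ q ∈ Q, ∀ q' ∈ Q, q ≠ q' → q.Coprime q') →
    ∀ θ : ℝ, (∏ q ∈ Q, fac n q (R q).card) * ‖Sf α θ‖ ^ (2 * (n + 1)) ≤
      ∑ a ∈ range (∏ q ∈ Q, q), ‖Sf α (a / (∏ q ∈ Q, q : ℕ) + θ)‖ ^ (2 * (n + 1)) := by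
  classical
  induction Q using Finset.induction_on with
  | empty =>
    intro _ _ θ
    simp
  | insert p P hp ih =>
    intro hR hco θ
    have hRP : ∀ l ∈ P, 2 ≤ l ∧ (∀ n, α n ≠ 0 → n % l ∈ R l) ∧ 0 < (R l).card ∧
        (R l).card ≤ l := fun l hl => hR l (mem_insert_of_mem hl)
    obtain ⟨hpp, hRp, hRp0, hRpp⟩ := hR p (mem_insert_self _ _)
    set q := ∏ l ∈ P, l with hq
    have hq0 : 0 < q := Finset.prod_pos fun l hl => by have := (hRP l hl).1; omega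
    have hcop : p.Coprime q := by
      apply Nat.Coprime.prod_right
      intro l hl
      exact hco p (mem_insert_self _ _) l (mem_insert_of_mem hl) (by
        rintro rfl
        exact hp hl)
    rw [Finset.prod_insert hp, Finset.prod_insert hp, mul_assoc]
    have hg : 0 ≤ fac n p (R p).card := zero_le_one.trans (fac_ge_one n hpp hRpp)
    refine le_trans ?_ (split_all hcop (by omega) hq0 θ _)
    refine (mul_le_mul_of_nonneg_left (ih hRP (fun a ha b hb => hco a (mem_insert_of_mem ha) b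
      (mem_insert_of_mem hb)) θ) hg).trans ?_
    rw [Finset.mul_sum]
    exact Finset.sum_le_sum fun b _ => one_mod hα n hpp (R p) hRp hRp0 hRpp _

end Pool.Agent.Q146.LV
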