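import Mathlib
import Pool.Agent.Q146.LV.Loc
import Pool.Agent.TH854.BV.Low

/-!
# Residue classes of sums of two sets of distinct elements
-/

set_option autoImplicit false

open Finset

namespace Pool.Agent.Q146.LV

open Pool.Agent.Helper112 Pool.Agent.TH314.ET Pool.Agent.TH854.BV Pool.Agent.H396R2

/-- the weights -/
noncomputable def wt (F : Finset ℕ) (x : ℝ) (n : ℕ) : ℂ := if n ∈ F then ((x ^ (2 * n) : ℝ) : ℂ) else 0

theorem wt_summable (F : Finset ℕ) (x : ℝ) : Summable fun n => ‖wt F x n‖ :=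
  summable_of_ne_finset_zero (s := F) fun n hn => by unfold wt; rw [if_neg hn, norm_zero]

theorem Sf_wt (F : Finset ℕ) (x θ : ℝ) :
    Sf (wt F x) θ = ∑ a ∈ F, ((x ^ (2 * a) : ℝ) : ℂ) * ee (a * θ) := by
  unfold Sf
  rw [tsum_eq_sum (s := F) (fun n hn => by unfold wt; rw [if_neg hn, zero_mul])]
  exact Finset.sum_congr rfl fun a ha => by unfold wt; rw [if_pos ha]

theorem Sf_wt_zero (F : Finset ℕ) (x : ℝ) : Sf (wt F x) 0 = (pp F x : ℂ) := by
  rw [Sf_wt]
  unfold pp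
  push_cast
  exact Finset.sum_congr rfl fun a _ => by rw [mul_zero, ls_ee_zero, mul_one]

/-- tuples -/
def tu (F : Finset ℕ) (k : ℕ) : Finset (Fin k → ℕ) := Fintype.piFinset fun _ => F

theorem Sf_wt_pow (F : Finset ℕ) (x θ : ℝ) (k : ℕ) :
    Sf (wt F x) θ ^ k =
      ∑ f ∈ tu F k, ((x ^ (2 * ∑ i, f i) : ℝ) : ℂ) * ee ((∑ i, f i : ℕ) * θ) := by
  rw [Sf_wt, Finset.sum_pow']
  unfold tu
  refine Finset.sum_congr rfl fun f _ => ?_
  rw [Finset.prod_mul_distrib]
  congr 1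
  · rw [← Complex.ofReal_prod, Finset.prod_pow_eq_pow_sum, Finset.mul_sum]
  · have : ∀ s : Finset (Fin k), ∏ i ∈ s, ee ((f i : ℝ) * θ) = ee ((∑ i ∈ s, f i : ℕ) * θ) := by
      intro s
      induction s using Finset.induction_on with
      | empty => simp [ls_ee_zero]
      | insert a s ha ih =>
        rw [Finset.prod_insert ha, Finset.sum_insert ha, ih, ← ls_ee_add]
        congr 1
        push_cast
        ring
    exact this univ

/-- pairs of tuples -/
def TT (F : Finset ℕ) (k m : ℕ) : Finset ((Fin k → ℕ) × (Fin m → ℕ)) := tu F k ×ˢ tu F m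

/-- the sum -/
def sg {k m : ℕ} (p : (Fin k → ℕ) × (Fin m → ℕ)) : ℕ := ∑ i, p.1 i + ∑ i, p.2 i

/-- class sums of pairs of tuples -/
noncomputable def Zc (F : Finset ℕ) (x : ℝ) (k m M c : ℕ) : ℝ :=
  ∑ p ∈ TT F k m, if sg p % M = c then x ^ (2 * sg p) else 0

/-- class sums of pairs of sets -/
noncomputable def Yc (F : Finset ℕ) (x : ℝ) (k m M c : ℕ) : ℝ :=
  ∑ ω ∈ PW F k m, if nu ω % M = c then x ^ (2 * nu ω) else 0

theorem Zc_nonneg (F : Finset ℕ) {x : ℝ} (hx : 0 ≤ x) (k m M c : ℕ) : 0 ≤ Zc F x k m M c :=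
  Finset.sum_nonneg fun p _ => by split_ifs <;> positivity

theorem Yc_nonneg (F : Finset ℕ) {x : ℝ} (hx : 0 ≤ x) (k m M c : ℕ) : 0 ≤ Yc F x k m M c :=
  Finset.sum_nonneg fun p _ => by split_ifs <;> positivity

theorem ee_mod (a n M : ℕ) (hM : 0 < M) :
    ee ((n : ℝ) * ((a : ℝ) / M)) = ee ((a : ℝ) * (((n % M : ℕ) : ℝ) / M)) := by
  have hM' : (M : ℝ) ≠ 0 := by positivity
  have h2 : (n : ℝ) = (M : ℝ) * ((n / M : ℕ) : ℝ) + ((n % M : ℕ) : ℝ) := by
    exact_mod_cast (Nat.div_add_mod n M).symm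
  have h3 : (n : ℝ) * ((a : ℝ) / M) = a * (((n % M : ℕ) : ℝ) / M) + ((n / M * a : ℕ) : ℝ) := by
    push_cast
    field_simp
    nlinarith [h2]
  rw [h3, ls_ee_add, ls_ee_nat, mul_one]

theorem Sf_class (F : Finset ℕ) (x : ℝ) (k m M a : ℕ) (hM : 0 < M) :
    Sf (wt F x) ((a : ℝ) / M) ^ (k + m) =
      ∑ c ∈ range M, (Zc F x k m M c : ℂ) * ee ((a : ℝ) * ((c : ℝ) / M)) := by
  rw [pow_add, Sf_wt_pow, Sf_wt_pow, Finset.sum_mul_sum, ← Finset.sum_product']
  have h1 : ∀ p ∈ tu F k ×ˢ tu F m, ((x ^ (2 * ∑ i, p.1 i) : ℝ) : ℂ) *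
        ee ((∑ i, p.1 i : ℕ) * ((a : ℝ) / M)) * (((x ^ (2 * ∑ i, p.2 i) : ℝ) : ℂ) *
          ee ((∑ i, p.2 i : ℕ) * ((a : ℝ) / M))) =
      ∑ c ∈ range M, (if sg p % M = c then ((x ^ (2 * sg p) : ℝ) : ℂ) else 0) *
        ee ((a : ℝ) * ((c : ℝ) / M)) := by
    intro p _
    rw [Finset.sum_eq_single (sg p % M)]
    · rw [if_pos rfl, ← ee_mod a (sg p) M hM]
      have e1 : ee (((∑ i, p.1 i : ℕ) : ℝ) * ((a : ℝ) / M)) *
          ee (((∑ i, p.2 i : ℕ) : ℝ) * ((a : ℝ) / M)) = ee ((sg p : ℝ) * ((a : ℝ) / M)) := by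
        rw [← ls_ee_add, ← add_mul]
        unfold sg
        push_cast
        rfl
      have e2 : (((x ^ (2 * ∑ i, p.1 i) : ℝ) : ℂ)) * ((x ^ (2 * ∑ i, p.2 i) : ℝ) : ℂ) =
          ((x ^ (2 * sg p) : ℝ) : ℂ) := by
        unfold sg
        rw [mul_add, pow_add]
        push_cast
        ring
      rw [← e1, ← e2]
      ring
    · intro c _ hc
      rw [if_neg (fun h => hc h.symm), zero_mul]
    · intro h
      exact absurd (mem_range.2 (Nat.mod_lt _ hM)) h
  rw [Finset.sum_congr rfl h1, Finset.sum_comm]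
  refine Finset.sum_congr rfl fun c _ => ?_
  rw [← Finset.sum_mul]
  congr 1
  unfold Zc TT
  push_cast
  exact Finset.sum_congr rfl fun p _ => by split_ifs <;> simp

theorem sum_Zc_sq (F : Finset ℕ) (x : ℝ) (k m M : ℕ) (hM : 0 < M) :
    ∑ a ∈ range M, ‖Sf (wt F x) ((a : ℝ) / M + 0)‖ ^ (2 * (k + m)) =
      M * ∑ c ∈ range M, Zc F x k m M c ^ 2 := by
  have h5 : ∀ a ∈ range M, ‖Sf (wt F x) ((a : ℝ) / M + 0)‖ ^ (2 * (k + m)) =
      ‖∑ c ∈ range M, (Zc F x k m M c : ℂ) * ee (a * ((c : ℝ) / M))‖ ^ 2 := by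
    intro a _
    rw [← Sf_class F x k m M a hM, norm_pow, add_zero, ← pow_mul, mul_comm 2]
  rw [Finset.sum_congr rfl h5, parseval_range M (fun c => (Zc F x k m M c : ℂ))]
  congr 1
  refine Finset.sum_congr rfl fun c _ => ?_
  rw [Complex.norm_real, Real.norm_eq_abs, sq_abs]

theorem sum_Zc (F : Finset ℕ) (x : ℝ) (k m M : ℕ) (hM : 0 < M) :
    ∑ c ∈ range M, Zc F x k m M c = pp F x ^ (k + m) := by
  have h := Sf_class F x k m M 0 hM
  rw [Nat.cast_zero, zero_div, Sf_wt_zero] at h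
  simp only [zero_mul, ls_ee_zero, mul_one] at h
  exact_mod_cast h.symm

theorem sum_Yc (F : Finset ℕ) (x : ℝ) (k m M : ℕ) (hM : 0 < M) :
    ∑ c ∈ range M, Yc F x k m M c = ee F x k * ee F x m := by
  rw [← sum_PW]
  unfold Yc
  rw [Finset.sum_comm]
  refine Finset.sum_congr rfl fun ω _ => ?_
  rw [Finset.sum_ite_eq, if_pos (mem_range.2 (Nat.mod_lt _ hM))]

/-- every set of `k` elements is the range of `k!` tuples -/
theorem fact_powerset_le (F : Finset ℕ) (k : ℕ) (w : ℕ → ℝ) (hw : ∀ n, 0 ≤ w n) :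
    (k.factorial : ℝ) * ∑ S ∈ F.powersetCard k, w (∑ a ∈ S, a) ≤ ∑ f ∈ tu F k, w (∑ i, f i) := by
  classical
  -- tuples with a given range
  set g : Finset ℕ → Finset (Fin k → ℕ) := fun S =>
    (tu F k).filter (fun f => Function.Injective f ∧ univ.image f = S) with hg
  have h1 : ∀ S ∈ F.powersetCard k, (k.factorial : ℝ) * w (∑ a ∈ S, a) ≤
      ∑ f ∈ g S, w (∑ i, f i) := by
    intro S hS
    rw [Finset.mem_powersetCard] at hS
    have h2 : ∀ f ∈ g S, w (∑ i, f i) = w (∑ a ∈ S, a) := by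
      intro f hf
      rw [hg] at hf
      simp only [mem_filter] at hf
      rw [← hf.2.2, Finset.sum_image (fun a _ b _ h => hf.2.1 h)]
    rw [Finset.sum_congr rfl h2, Finset.sum_const, nsmul_eq_mul]
    apply mul_le_mul_of_nonneg_right _ (hw _)
    have h3 : Fintype.card (Fin k ≃ {a // a ∈ S}) = k.factorial := by
      rw [Fintype.card_equiv (Fintype.equivFinOfCardEq (by
        rw [Fintype.card_coe]; exact hS.2)).symm, Fintype.card_fin]
    have h4 : (k.factorial : ℕ) ≤ (g S).card := by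
      rw [← h3, ← Finset.card_univ]
      apply Finset.card_le_card_of_injOn (fun e : Fin k ≃ {a // a ∈ S} => fun i => ((e i : ℕ)))
      · intro e _
        rw [hg, Finset.mem_coe]
        simp only [mem_filter]
        refine ⟨?_, ?_, ?_⟩
        · unfold tu
          rw [Fintype.mem_piFinset]
          exact fun i => hS.1 (e i).2
        · intro i j hij
          exact e.injective (Subtype.ext hij)
        · ext a
          simp only [mem_image, mem_univ, true_and]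
          constructor
          · rintro ⟨i, rfl⟩
            exact (e i).2
          · intro ha
            exact ⟨e.symm ⟨a, ha⟩, by simp⟩
      · intro e _ e' _ h
        ext i
        exact congrFun h i
    exact_mod_cast h4
  rw [Finset.mul_sum]
  refine (Finset.sum_le_sum h1).trans ?_
  rw [← Finset.sum_biUnion]
  · apply Finset.sum_le_sum_of_subset_of_nonneg
    · intro f hf
      rw [Finset.mem_biUnion] at hf
      obtain ⟨S, _, hf⟩ := hf
      exact (Finset.mem_filter.1 hf).1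
    · intro f _ _
      exact hw _
  · intro S _ S' _ hne
    rw [Function.onFun, Finset.disjoint_left]
    intro f hf hf'
    exact hne ((Finset.mem_filter.1 hf).2.2.symm.trans (Finset.mem_filter.1 hf').2.2)

theorem Yc_le (F : Finset ℕ) {x : ℝ} (hx : 0 ≤ x) (k m M c : ℕ) :
    ((k.factorial : ℝ) * (m.factorial : ℝ)) * Yc F x k m M c ≤ Zc F x k m M c := by
  set w : ℕ → ℝ := fun n => if n % M = c then x ^ (2 * n) else 0 with hw
  have hw0 : ∀ n, 0 ≤ w n := fun n => by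
    rw [hw]; simp only; split_ifs <;> positivity
  have e1 : Yc F x k m M c = ∑ S ∈ F.powersetCard k, ∑ S' ∈ F.powersetCard m,
      w (∑ a ∈ S, a + ∑ a ∈ S', a) := by
    unfold Yc PW nu
    rw [← Finset.sum_product']
  have e2 : Zc F x k m M c = ∑ f ∈ tu F k, ∑ g ∈ tu F m, w (∑ i, f i + ∑ i, g i) := by
    unfold Zc TT sg
    rw [← Finset.sum_product']
  rw [e1, e2]
  have h1 : ∀ s : ℕ, (m.factorial : ℝ) * ∑ S' ∈ F.powersetCard m, w (s + ∑ a ∈ S', a) ≤
      ∑ g ∈ tu F m, w (s + ∑ i, g i) := fun s =>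
    fact_powerset_le F m (fun n => w (s + n)) (fun n => hw0 _)
  have h2 := fact_powerset_le F k (fun s => ∑ g ∈ tu F m, w (s + ∑ i, g i))
    (fun n => Finset.sum_nonneg fun _ _ => hw0 _)
  refine le_trans ?_ h2
  rw [mul_assoc]
  apply mul_le_mul_of_nonneg_left _ (Nat.cast_nonneg _)
  rw [Finset.mul_sum]
  exact Finset.sum_le_sum fun S _ => h1 _

/-- the mean square of the class sums of pairs of sets -/
theorem Yc_sq_ge (F : Finset ℕ) {x : ℝ} (hx : 0 ≤ x) (k m M : ℕ) (hM : 0 < M) (G η : ℝ)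
    (hG : G * pp F x ^ (2 * (k + m)) ≤ M * ∑ c ∈ range M, Zc F x k m M c ^ 2)
    (hη : (1 - η) * pp F x ^ (k + m) ≤
      ((k.factorial : ℝ) * (m.factorial : ℝ)) * (ee F x k * ee F x m)) :
    (G - 2 * M * η) * pp F x ^ (2 * (k + m)) ≤
      M * (((k.factorial : ℝ) * (m.factorial : ℝ)) ^ 2 * ∑ c ∈ range M, Yc F x k m M c ^ 2) := by
  set P := pp F x with hP
  set kf := (k.factorial : ℝ) * (m.factorial : ℝ) with hkf
  have hkf0 : 0 ≤ kf := by rw [hkf]; positivity
  have hP0 : 0 ≤ P := pp_nonneg F x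
  have h1 : ∑ c ∈ range M, Zc F x k m M c ^ 2 - kf ^ 2 * ∑ c ∈ range M, Yc F x k m M c ^ 2 ≤
      2 * P ^ (k + m) * (η * P ^ (k + m)) := by
    have hZP : ∀ c ∈ range M, Zc F x k m M c ≤ P ^ (k + m) := by
      intro c hc
      rw [← sum_Zc F x k m M hM]
      exact Finset.single_le_sum (f := fun c => Zc F x k m M c)
        (fun c _ => Zc_nonneg F hx k m M c) hc
    have h2 : ∀ c ∈ range M, Zc F x k m M c ^ 2 - kf ^ 2 * Yc F x k m M c ^ 2 ≤
        2 * P ^ (k + m) * (Zc F x k m M c - kf * Yc F x k m M c) := by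
      intro c hc
      have a1 := Yc_le F hx k m M c
      rw [← hkf] at a1
      have a2 := hZP c hc
      have a3 := Yc_nonneg F hx k m M c
      have a4 : 0 ≤ kf * Yc F x k m M c := mul_nonneg hkf0 a3
      have e : Zc F x k m M c ^ 2 - kf ^ 2 * Yc F x k m M c ^ 2 =
          (Zc F x k m M c + kf * Yc F x k m M c) * (Zc F x k m M c - kf * Yc F x k m M c) := by
        ring
      rw [e]
      exact mul_le_mul_of_nonneg_right (by linarith) (by linarith)
    calc _ = ∑ c ∈ range M, (Zc F x k m M c ^ 2 - kf ^ 2 * Yc F x k m M c ^ 2) := by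
          rw [Finset.sum_sub_distrib, Finset.mul_sum]
      _ ≤ ∑ c ∈ range M, 2 * P ^ (k + m) * (Zc F x k m M c - kf * Yc F x k m M c) :=
          Finset.sum_le_sum h2
      _ = 2 * P ^ (k + m) * (P ^ (k + m) - kf * (ee F x k * ee F x m)) := by
          rw [← Finset.mul_sum, Finset.sum_sub_distrib, ← Finset.mul_sum, sum_Zc F x k m M hM,
            sum_Yc F x k m M hM]
      _ ≤ _ := by
          apply mul_le_mul_of_nonneg_left _ (by positivity)
          linarith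
  have hM' : (0 : ℝ) ≤ M := Nat.cast_nonneg _
  have h3 := mul_le_mul_of_nonneg_left h1 hM'
  have e : (M : ℝ) * (2 * P ^ (k + m) * (η * P ^ (k + m))) = 2 * M * η * P ^ (2 * (k + m)) := by
    rw [mul_comm 2 (k + m), pow_mul]
    ring
  rw [e, mul_sub] at h3
  rw [sub_mul]
  linarith

end Pool.Agent.Q146.LV
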