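import Mathlib
import Pool.Agent.Q146.LV.Cls
import Pool.Agent.TH854.BV.Core
import Pool.Agent.TH314.ET.Prod

/-!
# The main inequality for finite sets, with residue classes
-/

set_option autoImplicit false

open Finset

namespace Pool.Agent.Q146.LV

open Pool.Agent.TH854.BV Pool.Agent.H396R2

section

variable {Ω : Type*} [DecidableEq Ω] (P : Finset Ω) (ν : Ω → ℕ) (x : ℝ) (B : ℕ) [NeZero B]

/-- class sums -/
noncomputable def YY (M c : ℕ) : ℝ := ∑ ω ∈ P, if ν ω % M = c then x ^ (2 * ν ω) else 0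

variable {P ν x B}

omit [DecidableEq Ω] in
lemma YY_nonneg (hx : 0 ≤ x) (M c : ℕ) : 0 ≤ YY P ν x M c :=
  Finset.sum_nonneg fun p _ => by split_ifs <;> positivity

omit [DecidableEq Ω] in
lemma YY_le (hx : 0 ≤ x) (M c : ℕ) : YY P ν x M c ≤ ∑ ω ∈ P, x ^ (2 * ν ω) :=
  Finset.sum_le_sum fun p _ => by
    split_ifs
    · exact le_refl _
    · positivity

omit [DecidableEq Ω] in
/-- lower bound for the energy of windows in progressions modulo `M` -/
lemma win_cls_ge {L M : ℕ} (hM : 0 < M) (hx0 : 0 < x) (hx1 : x < 1)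
    (hB : ∀ ω ∈ P, ν ω + L * M < B) (CR : ℝ) (hCR : ∀ n, (cnt P ν n : ℝ) ≤ CR) :
    (L : ℝ) ^ 2 * ((1 - x ^ (2 * M)) * (∑ c ∈ range M, YY P ν x M c ^ 2 -
      2 * ((L * M * CR) * ∑ ω ∈ P, x ^ (2 * ν ω)))) ≤
      ∑ k, (win L (fun i => ((M * i : ℕ) : ZMod B)) (RR P ν x B) k) ^ 2 := by
  set Y := ∑ ω ∈ P, x ^ (2 * ν ω) with hYdef
  have hY0 : 0 ≤ Y := Finset.sum_nonneg fun _ _ => by positivity
  have hCR0 : 0 ≤ CR := le_trans (Nat.cast_nonneg _) (hCR 0)
  set S := ∑ c ∈ range M, YY P ν x M c ^ 2 with hS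
  have hS0 : 0 ≤ S := Finset.sum_nonneg fun _ _ => sq_nonneg _
  set v : ZMod B → ℝ := fun κ => YY P ν x M (κ.val % M) * x ^ κ.val with hv
  have hv0 : ∀ κ, 0 ≤ v κ := fun κ => mul_nonneg (YY_nonneg hx0.le _ _) (by positivity)
  have h1 : (L : ℝ) * (S - L * M * CR * Y) ≤
      ∑ k, v k * win L (fun i => ((M * i : ℕ) : ZMod B)) (RR P ν x B) k := by
    have e1 : ∑ k, v k * win L (fun i => ((M * i : ℕ) : ZMod B)) (RR P ν x B) k
        = ∑ i ∈ range L, ∑ ω ∈ P, x ^ ν ω * v ((ν ω : ZMod B) - ((M * i : ℕ) : ZMod B)) := by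
      unfold win
      simp_rw [Finset.mul_sum]
      rw [Finset.sum_comm]
      refine Finset.sum_congr rfl fun i _ => ?_
      rw [← sum_push_mul P (fun ω => (ν ω : ZMod B)) (fun ω => x ^ ν ω)
        (fun κ => v (κ - ((M * i : ℕ) : ZMod B)))]
      rw [← sum_shift (fun k => push P (fun ω => (ν ω : ZMod B)) (fun ω => x ^ ν ω) k *
        v (k - ((M * i : ℕ) : ZMod B))) ((M * i : ℕ) : ZMod B)]
      refine Finset.sum_congr rfl fun k _ => ?_
      rw [add_sub_cancel_right]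
      unfold RR
      ring
    rw [e1]
    have e2 : ∀ i ∈ range L, S - L * M * CR * Y ≤
        ∑ ω ∈ P, x ^ ν ω * v ((ν ω : ZMod B) - ((M * i : ℕ) : ZMod B)) := by
      intro i hi
      rw [Finset.mem_range] at hi
      have hMi : M * i ≤ L * M := by
        rw [mul_comm L M]; exact Nat.mul_le_mul_left _ hi.le
      have h2 : ∑ ω ∈ P, (if ν ω < M * i then 0 else x ^ (2 * ν ω) * YY P ν x M (ν ω % M)) ≤
          ∑ ω ∈ P, x ^ ν ω * v ((ν ω : ZMod B) - ((M * i : ℕ) : ZMod B)) := by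
        apply Finset.sum_le_sum
        intro ω hω
        split_ifs with hc
        · exact mul_nonneg (by positivity) (hv0 _)
        · have h3 : (ν ω : ZMod B) - ((M * i : ℕ) : ZMod B) = ((ν ω - M * i : ℕ) : ZMod B) := by
            rw [Nat.cast_sub (by omega)]
          rw [h3, hv]
          simp only
          have a1 := hB ω hω
          rw [ZMod.val_natCast, Nat.mod_eq_of_lt (by omega : ν ω - M * i < B)]
          have h4 : (ν ω - M * i) % M = ν ω % M := by
            exact Nat.sub_mul_mod (by omega)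
          rw [h4, two_mul, pow_add]
          have h5 : x ^ ν ω ≤ x ^ (ν ω - M * i) := pow_le_pow_of_le_one hx0.le hx1.le (by omega)
          calc x ^ ν ω * x ^ ν ω * YY P ν x M (ν ω % M)
              = x ^ ν ω * (YY P ν x M (ν ω % M) * x ^ ν ω) := by ring
            _ ≤ _ := mul_le_mul_of_nonneg_left
                (mul_le_mul_of_nonneg_left h5 (YY_nonneg hx0.le _ _)) (by positivity)
      refine le_trans ?_ h2
      have hSe : S = ∑ ω ∈ P, x ^ (2 * ν ω) * YY P ν x M (ν ω % M) := by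
        have h3 : ∀ ω ∈ P, x ^ (2 * ν ω) * YY P ν x M (ν ω % M) =
            ∑ c ∈ range M, (if ν ω % M = c then x ^ (2 * ν ω) else 0) * YY P ν x M c := by
          intro ω _
          rw [Finset.sum_eq_single (ν ω % M)]
          · rw [if_pos rfl]
          · intro c _ hc
            rw [if_neg (fun h => hc h.symm), zero_mul]
          · intro h
            exact absurd (mem_range.2 (Nat.mod_lt _ hM)) h
        rw [Finset.sum_congr rfl h3, Finset.sum_comm, hS]
        refine Finset.sum_congr rfl fun c _ => ?_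
        rw [← Finset.sum_mul, sq]
        rfl
      have h4 : S ≤ ∑ ω ∈ P, (if ν ω < M * i then 0 else x ^ (2 * ν ω) * YY P ν x M (ν ω % M)) +
          ∑ ω ∈ P, (if ν ω < M * i then Y else 0) := by
        rw [hSe, ← Finset.sum_add_distrib]
        apply Finset.sum_le_sum
        intro ω _
        split_ifs
        · rw [zero_add]
          calc x ^ (2 * ν ω) * YY P ν x M (ν ω % M) ≤ 1 * Y :=
                mul_le_mul (pow_le_one₀ hx0.le hx1.le) (YY_le hx0.le _ _) (YY_nonneg hx0.le _ _)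
                  zero_le_one
            _ = Y := one_mul _
        · rw [add_zero]
      have h5 : (∑ ω ∈ P, (if ν ω < M * i then Y else 0) : ℝ) ≤ L * M * CR * Y := by
        rw [← Finset.sum_filter, Finset.sum_const, nsmul_eq_mul]
        apply mul_le_mul_of_nonneg_right _ hY0
        have h6 : (P.filter (fun ω => ν ω < M * i)).card = ∑ n ∈ range (M * i), cnt P ν n := by
          unfold cnt
          rw [Finset.card_eq_sum_card_fiberwise (f := ν) (t := range (M * i))]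
          · refine Finset.sum_congr rfl fun n hn => ?_
            rw [Finset.mem_range] at hn
            congr 1
            ext ω
            simp only [Finset.mem_filter]
            constructor
            · rintro ⟨⟨a, _⟩, b⟩; exact ⟨a, b⟩
            · rintro ⟨a, b⟩; exact ⟨⟨a, by omega⟩, b⟩
          · intro ω hω
            rw [Finset.mem_coe, Finset.mem_filter] at hω
            rw [Finset.mem_coe, Finset.mem_range]
            exact hω.2
        rw [h6]
        push_cast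
        calc ∑ n ∈ range (M * i), (cnt P ν n : ℝ) ≤ ∑ n ∈ range (M * i), CR :=
              Finset.sum_le_sum fun n _ => hCR n
          _ = ((M * i : ℕ) : ℝ) * CR := by rw [Finset.sum_const, card_range, nsmul_eq_mul]
          _ ≤ ((L * M : ℕ) : ℝ) * CR :=
              mul_le_mul_of_nonneg_right (by exact_mod_cast hMi) hCR0
          _ = _ := by push_cast; ring
      linarith
    calc (L : ℝ) * (S - L * M * CR * Y) = ∑ i ∈ range L, (S - L * M * CR * Y) := by
          rw [Finset.sum_const, card_range, nsmul_eq_mul]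
      _ ≤ _ := Finset.sum_le_sum e2
  set W := ∑ k, (win L (fun i => ((M * i : ℕ) : ZMod B)) (RR P ν x B) k) ^ 2 with hW
  have h2 : (∑ k, v k * win L (fun i => ((M * i : ℕ) : ZMod B)) (RR P ν x B) k) ^ 2 ≤
      (∑ k, (v k) ^ 2) * W :=
    Finset.sum_mul_sq_le_sq_mul_sq _ _ _
  have hx2 : 0 < 1 - x ^ (2 * M) := by
    have := pow_lt_one₀ hx0.le hx1 (by omega : 2 * M ≠ 0)
    linarith
  have h3 : ∑ k, (v k) ^ 2 ≤ S * (1 - x ^ (2 * M))⁻¹ := by
    have h4 : ∑ k, (v k) ^ 2 = ∑ n ∈ range B, YY P ν x M (n % M) ^ 2 * (x ^ 2) ^ n := by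
      rw [← Fin.sum_univ_eq_sum_range (fun n => YY P ν x M (n % M) ^ 2 * (x ^ 2) ^ n) B]
      obtain ⟨b, rfl⟩ : ∃ b, B = b + 1 := ⟨B - 1, by have := NeZero.ne B; omega⟩
      refine Finset.sum_congr rfl fun k _ => ?_
      rw [hv]
      simp only
      rw [mul_pow, ← pow_mul, ← pow_mul, mul_comm _ 2]
      rfl
    have h5 : ∀ n : ℕ, YY P ν x M (n % M) ^ 2 * (x ^ 2) ^ n =
        ∑ c ∈ range M, YY P ν x M c ^ 2 * (if n % M = c then (x ^ 2) ^ n else 0) := by
      intro n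
      rw [Finset.sum_eq_single (n % M)]
      · rw [if_pos rfl]
      · intro c _ hc
        rw [if_neg (fun h => hc h.symm), mul_zero]
      · intro h
        exact absurd (mem_range.2 (Nat.mod_lt _ hM)) h
    rw [h4]
    simp_rw [h5]
    rw [Finset.sum_comm, hS, Finset.sum_mul]
    apply Finset.sum_le_sum
    intro c hc
    rw [← Finset.mul_sum]
    apply mul_le_mul_of_nonneg_left _ (sq_nonneg _)
    have hx20 : (0 : ℝ) < x ^ 2 := by positivity
    have hx21 : x ^ 2 < 1 := by nlinarith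
    have h6 := Pool.Agent.TH314.ET.class_geom hx20 hx21 hM c (mem_range.1 hc)
    rw [← pow_mul, one_div] at h6
    refine le_trans ?_ h6
    apply Summable.sum_le_tsum
    · intro n _
      split_ifs <;> positivity
    · refine Summable.of_nonneg_of_le (fun n => ?_) (fun n => ?_)
        (summable_geometric_of_lt_one hx20.le hx21)
      · split_ifs <;> positivity
      · split_ifs
        · exact le_refl _
        · positivity
  have hW0 : 0 ≤ W := Finset.sum_nonneg fun _ _ => sq_nonneg _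
  set er := (L : ℝ) * M * CR * Y with her
  have her0 : 0 ≤ er := by positivity
  have hLL : (0 : ℝ) ≤ (L : ℝ) ^ 2 := by positivity
  have goal : (L : ℝ) ^ 2 * ((1 - x ^ (2 * M)) * (S - 2 * er)) ≤ W := by
    rcases le_or_gt (S - 2 * er) 0 with h | h
    · refine le_trans ?_ hW0
      exact mul_nonpos_of_nonneg_of_nonpos hLL (mul_nonpos_of_nonneg_of_nonpos hx2.le h)
    · have hSpos : 0 < S := by linarith
      have h4 : ((L : ℝ) * (S - er)) ^ 2 ≤ (S * (1 - x ^ (2 * M))⁻¹) * W := by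
        refine le_trans (pow_le_pow_left₀ ?_ h1 2) (h2.trans (mul_le_mul_of_nonneg_right h3 hW0))
        exact mul_nonneg (Nat.cast_nonneg _) (by linarith)
      have h5 := mul_le_mul_of_nonneg_left h4 hx2.le
      have h6 : (1 - x ^ (2 * M)) * (S * (1 - x ^ (2 * M))⁻¹ * W) = S * W := by
        field_simp
      rw [h6] at h5
      have h7 : S * ((L : ℝ) ^ 2 * ((1 - x ^ (2 * M)) * (S - 2 * er))) ≤ S * W := by
        refine le_trans ?_ h5
        have h8 : S * (S - 2 * er) ≤ (S - er) ^ 2 := by nlinarith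
        have h9 := mul_le_mul_of_nonneg_left h8 (mul_nonneg hLL hx2.le)
        calc S * ((L : ℝ) ^ 2 * ((1 - x ^ (2 * M)) * (S - 2 * er)))
            = (L : ℝ) ^ 2 * (1 - x ^ (2 * M)) * (S * (S - 2 * er)) := by ring
          _ ≤ _ := h9
          _ = _ := by ring
      exact le_of_mul_le_mul_left h7 hSpos
  exact goal

end

lemma win_prog_le {B : ℕ} [NeZero B] (L M : ℕ) (hM : 0 < M) (u : ZMod B → ℝ) (hu : ∀ k, 0 ≤ u k) (k : ZMod B) :
    win L (fun i => ((M * i : ℕ) : ZMod B)) u k ≤ win (L * M) (fun i => (i : ZMod B)) u k := by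
  unfold win
  have h1 : ∑ i ∈ range L, u (k + ((M * i : ℕ) : ZMod B)) =
      ∑ j ∈ (range L).image (fun i => M * i), u (k + (j : ZMod B)) := by
    rw [Finset.sum_image (f := fun j : ℕ => u (k + (j : ZMod B)))]
    intro a _ b _ hab
    exact Nat.eq_of_mul_eq_mul_left hM hab
  rw [h1]
  apply Finset.sum_le_sum_of_subset_of_nonneg
  · intro j hj
    rw [Finset.mem_image] at hj
    obtain ⟨i, hi, rfl⟩ := hj
    rw [Finset.mem_range] at hi ⊢
    calc M * i < M * L := Nat.mul_lt_mul_of_pos_left hi hM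
      _ = L * M := mul_comm _ _
  · intro j _ _
    exact hu _

lemma win_sf_gen (F : Finset ℕ) (k m : ℕ) (x : ℝ) (B L : ℕ) [NeZero B] (γ : ℕ → ZMod B) :
    ∑ κ, (win L γ (RR (PW F k m) nu x B) κ) ^ 2
      = ∑ κ, (win L γ (sf' F k m x B) κ) ^ 2 := by
  unfold win
  rw [win_corr L γ, win_corr L γ]
  simp_rw [corr_RR]

/-- The main inequality for finite sets. -/
theorem core (F : Finset ℕ) (k m : ℕ) (hmk : m ≤ k) (x : ℝ) (hx0 : 0 < x)
    (hx1 : x < 1) (T : ℕ) (hT : ∀ a ∈ F, a ≤ T) (K0 : ℕ) (hK : ∀ n, rM F (k + m) n ≤ K0)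
    (L : ℕ) (hL : 0 < L) (M : ℕ) (hM : 0 < M) (hxL : 1 / 2 ≤ x ^ (L * M)) (a0 : ℕ) (ha0 : a0 ∈ F)
    (α : ℝ) (hα : 0 < α)
    (hαF : α ≤ (F.filter (fun c => c < L)).card) (θ : ℝ) (hθ : 0 < θ)
    (hP : (k + m : ℝ) ≤ pp F x) :
    (1 - x ^ (2 * M)) * (∑ c ∈ range M, Yc F x k m M c ^ 2 -
        2 * ((L * M * (((k + m).choose m : ℝ) * K0)) * (ee F x k * ee F x m))) +
      (pp F x - (k + m)) ^ (k + m) * ((((k + m).choose m : ℝ) - 1) /
        ((k.factorial : ℝ) * (m.factorial : ℝ))) -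
      θ⁻¹ * (4 * m ^ 2 * 4 ^ (k + m) * M ^ 2 * K0 / α) * (pp F x) ^ (k + m)
      ≤ (1 + θ) * (((k + m).choose m : ℝ) ^ 2 *
        ∑ n ∈ range ((k + m) * T + 1), x ^ (2 * n) * (rM F (k + m) n : ℝ) ^ 2) := by
  set C : ℝ := ((k + m).choose m : ℝ) with hC
  set S2 := ∑ n ∈ range ((k + m) * T + 1), x ^ (2 * n) * (rM F (k + m) n : ℝ) ^ 2 with hS2
  set B := (k + m) * T + L * M + 1 with hBdef
  have : NeZero B := ⟨by omega⟩
  set q := pp F x - (k + m) with hq
  have hq0 : 0 ≤ q := by linarith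
  have hqP : q ≤ pp F x := by
    have : (0 : ℝ) ≤ k + m := by positivity
    linarith
  set Q : ℕ → ℝ := fun j => q ^ j / (j.factorial : ℝ) with hQ
  have hLLM : L ≤ L * M := Nat.le_mul_of_pos_right _ hM
  have hW1 : ∀ j < m, ∀ y i, (((PW F (k - (j + 1)) (m - (j + 1))).filter
      (fun ω => y ≤ nu ω + i ∧ nu ω + i < y + L * M)).card : ℝ) ≤
        4 ^ (k + m) * (2 * (L * M : ℕ) * K0) / α := by
    intro j hj y i
    have h1 := window_PW F (k - (j + 1)) (m - (j + 1)) (k + m) K0 (L * M) a0 (by omega) ha0 hK y i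
    rw [le_div_iff₀ hα]
    have hαF' : α ≤ (F.filter (fun c => c < L * M)).card := by
      refine hαF.trans ?_
      have : (F.filter (fun c => c < L)) ⊆ F.filter (fun c => c < L * M) := by
        intro c hc
        rw [mem_filter] at hc ⊢
        exact ⟨hc.1, by omega⟩
      exact_mod_cast Finset.card_le_card this
    calc _ ≤ (((PW F (k - (j + 1)) (m - (j + 1))).filter
          (fun ω => y ≤ nu ω + i ∧ nu ω + i < y + L * M)).card : ℝ) *
            ((F.filter (fun c => c < L * M)).card : ℝ) :=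
          mul_le_mul_of_nonneg_left hαF' (Nat.cast_nonneg _)
      _ ≤ _ := by exact_mod_cast h1
  have hBs : ∀ a b, a ≤ k → b ≤ m → ∀ ω ∈ PW F a b, nu ω + L * M < B := by
    intro a b ha hb ω hω
    have h1 := nu_le F a b T hT ω hω
    have h2 : (a + b) * T ≤ (k + m) * T := Nat.mul_le_mul_right _ (by omega)
    omega
  have hQle : ∀ j < m, ∀ ω ∈ DP F (k - (j + 1)) (m - (j + 1)),
      Q (j + 1) ≤ ee (F \ (ω.1 ∪ ω.2)) x (j + 1) := by
    intro j hj ω hω
    rw [mem_DP] at hω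
    apply ee_ge _ x hx0.le hx1.le q hq0
    have h1 := pp_sdiff_ge F (ω.1 ∪ ω.2) x hx0.le hx1.le
    have h2 : (ω.1 ∪ ω.2).card ≤ (k - (j + 1)) + (m - (j + 1)) := by
      refine (Finset.card_union_le _ _).trans ?_
      rw [hω.1.1.2, hω.1.2.2]
    have h3 : ((ω.1 ∪ ω.2).card : ℝ) + ((j + 1 : ℕ) : ℝ) ≤ k + m := by
      have : (ω.1 ∪ ω.2).card + (j + 1) ≤ k + m := by omega
      exact_mod_cast this
    linarith
  have ht0 : ∀ κ, 0 ≤ tq F k m x B Q κ := by
    intro κ
    unfold tq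
    apply Finset.sum_nonneg
    intro j _
    exact mul_nonneg (by rw [hQ]; positivity) (df_nonneg F _ _ x hx0.le B κ)
  have E1 := energy_two L (fun i => ((M * i : ℕ) : ZMod B)) (tq F k m x B Q) (sf' F k m x B) ht0
    (tq_le F k m hmk x hx0.le B Q hQle) θ hθ
  have E2 := sum_tq_sq_ge F k m hmk x hx0.le hx1.le B q hq0 (by rw [hq]; linarith)
  have E3 : ∑ κ, (win L (fun i => ((M * i : ℕ) : ZMod B)) (tq F k m x B Q) κ) ^ 2 ≤
      2 * m ^ 2 * (L * M : ℕ) * (4 ^ (k + m) * (2 * (L * M : ℕ) * K0) / α) * (pp F x) ^ (k + m) := by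
    refine le_trans ?_ (sum_win_tq_le F k m (L * M) hmk x hx0 hx1.le hxL B
      (fun j hj ω hω => hBs _ _ (Nat.sub_le _ _) (Nat.sub_le _ _) ω hω) _ hW1 q hq0 hqP)
    apply Finset.sum_le_sum
    intro κ _
    exact pow_le_pow_left₀ (win_nonneg L _ _ ht0 κ) (win_prog_le L M hM _ ht0 κ) 2
  have hcnt : ∀ n, (cnt (PW F k m) nu n : ℝ) ≤ C * (rM F (k + m) n : ℝ) := by
    intro n
    have := cnt_PW_le F k m n
    rw [hC]
    exact_mod_cast this
  have hC0 : 0 ≤ C := Nat.cast_nonneg _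
  have hCR : ∀ n, (cnt (PW F k m) nu n : ℝ) ≤ C * K0 := by
    intro n
    refine (hcnt n).trans (mul_le_mul_of_nonneg_left ?_ hC0)
    exact_mod_cast hK n
  have E4 := win_cls_ge (P := PW F k m) (ν := nu) (B := B) (L := L) hM hx0 hx1
    (hBs k m le_rfl le_rfl) (C * K0) hCR
  rw [sum_PW, win_sf_gen] at E4
  have hYe : ∀ c, YY (PW F k m) nu x M c = Yc F x k m M c := fun c => rfl
  simp_rw [hYe] at E4
  have E5 : ∑ κ, (sf' F k m x B κ) ^ 2 ≤ C ^ 2 * S2 := by
    rw [← sq_RR, sum_RR_sq (N := (k + m) * T + 1)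
      (fun ω hω => by have := nu_le F k m T hT ω hω; omega) (by omega), hS2, Finset.mul_sum]
    apply Finset.sum_le_sum
    intro n _
    calc x ^ (2 * n) * (cnt (PW F k m) nu n : ℝ) ^ 2
        ≤ x ^ (2 * n) * (C * (rM F (k + m) n : ℝ)) ^ 2 := by
          apply mul_le_mul_of_nonneg_left _ (by positivity)
          exact pow_le_pow_left₀ (Nat.cast_nonneg _) (hcnt n) 2
      _ = _ := by ring
  have E6 : ∑ κ, (win L (fun i => ((M * i : ℕ) : ZMod B)) (sf' F k m x B) κ) ^ 2 ≤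
      (L : ℝ) ^ 2 * ∑ κ, (sf' F k m x B κ) ^ 2 := win_sq_le L _ _
  have hL0 : (0 : ℝ) < L := by exact_mod_cast hL
  have hL2 : (0 : ℝ) < (L : ℝ) ^ 2 := by positivity
  set SS := ∑ κ, (sf' F k m x B κ) ^ 2 with hSS
  set WS := ∑ κ, (win L (fun i => ((M * i : ℕ) : ZMod B)) (sf' F k m x B) κ) ^ 2 with hWS
  set ST := ∑ κ, (tq F k m x B Q κ) ^ 2 with hST
  set WT := ∑ κ, (win L (fun i => ((M * i : ℕ) : ZMod B)) (tq F k m x B Q) κ) ^ 2 with hWT
  set Y := ee F x k * ee F x m with hYd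
  set SY := ∑ c ∈ range M, Yc F x k m M c ^ 2 with hSY
  have hθi : 0 < θ⁻¹ := inv_pos.2 hθ
  have E7 : θ * WS ≤ θ * ((L : ℝ) ^ 2 * SS) := mul_le_mul_of_nonneg_left E6 hθ.le
  have E8 : θ⁻¹ * WT ≤ θ⁻¹ * (2 * m ^ 2 * (L * M : ℕ) * (4 ^ (k + m) * (2 * (L * M : ℕ) * K0) / α) *
      (pp F x) ^ (k + m)) := mul_le_mul_of_nonneg_left E3 hθi.le
  have E9 := mul_le_mul_of_nonneg_left E2 hL2.le
  have key : (L : ℝ) ^ 2 * ((1 - x ^ (2 * M)) * (SY - 2 * ((L * M * (C * K0)) * Y)) +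
        q ^ (k + m) * ((C - 1) / ((k.factorial : ℝ) * (m.factorial : ℝ))) -
      θ⁻¹ * (4 * m ^ 2 * 4 ^ (k + m) * M ^ 2 * K0 / α) * (pp F x) ^ (k + m)) ≤
      (L : ℝ) ^ 2 * ((1 + θ) * SS) := by
    have e1 : θ⁻¹ * (2 * m ^ 2 * (L * M : ℕ) * (4 ^ (k + m) * (2 * (L * M : ℕ) * K0) / α) *
        (pp F x) ^ (k + m)) =
        (L : ℝ) ^ 2 * (θ⁻¹ * (4 * m ^ 2 * 4 ^ (k + m) * M ^ 2 * K0 / α) * (pp F x) ^ (k + m)) := by
      push_cast
      ring
    rw [e1] at E8
    nlinarith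
  have key2 := le_of_mul_le_mul_left key hL2
  refine key2.trans ?_
  exact mul_le_mul_of_nonneg_left E5 (by linarith)

end Pool.Agent.Q146.LV
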