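import Mathlib
import Pool.Agent.Q146.LV.Core
import Pool.Agent.TH854.BV.Inf

set_option autoImplicit false

open Finset Filter Topology

namespace Pool.Agent.Q146.LV

open Pool.Agent.TH854.BV Pool.Agent.H396R2

lemma law_alg (u u' E Y SY S2 qh Ph C K0 hf kf L θ α D η G M : ℝ) (hu : 0 < u)
    (hu1 : u' ≤ M * u) (hu2 : (1 - η) * (M * u) ≤ u') (hM : 1 ≤ M) (hC : 1 ≤ C)
    (hK0 : 1 ≤ K0) (hE : 0 ≤ E) (hL : 0 ≤ L) (hθ : 0 < θ) (hα : 0 < α) (hD : 0 ≤ D)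
    (hη : 0 ≤ η) (hη1 : η ≤ 1) (hhf : 0 ≤ hf) (hkf : 0 < kf) (hCkf : C * kf = hf)
    (hSY : 0 ≤ SY) (hG1 : 0 ≤ G) (hG : 0 ≤ G - 2 * M * η) (F1 : (G - 2 * M * η) * Ph ^ 2 ≤ M * (kf ^ 2 * SY))
    (F2 : (1 - η) * (hf * E) ≤ Ph) (F3 : Ph ≤ hf * E) (F4 : (1 - 2 * η) * (C * E) ≤ qh / kf)
    (F5 : Y ≤ C * E) (hY : 0 ≤ Y)
    (core : u' * (SY - 2 * ((L * M * (C * K0)) * Y)) + qh * ((C - 1) / kf) -
      θ⁻¹ * (D * K0 / α) * Ph ≤ (1 + θ) * (C ^ 2 * S2))
    (hS2 : u * S2 ≤ K0 ^ 2) (hlam : u * E ≤ K0) :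
    G * (u * E) ^ 2 + (1 - 1 / C) * (u * E) -
      ((2 * M + 3 * G + 2) * η * K0 ^ 2 + 2 * L * M ^ 2 * K0 ^ 2 * u +
        θ⁻¹ * (D * K0 ^ 2 * hf / α) + θ * K0 ^ 2) ≤ u * S2 := by
  set lam := u * E with hlamdef
  have hl0 : 0 ≤ lam := by positivity
  have hC0 : 0 < C := by linarith
  have hK0' : 0 < K0 := by linarith
  have hM0 : 0 < M := by linarith
  have hMu : 0 ≤ M * u := by positivity
  have h1η : 0 ≤ 1 - η := by linarith
  have hu'0 : 0 ≤ u' := (mul_nonneg h1η hMu).trans hu2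
  -- main term
  have m1 : C ^ 2 * ((G - (2 * M + 3 * G) * η) * lam ^ 2) ≤ u * (u' * SY) := by
    have a1 : (1 - η) * (M * u) * SY ≤ u' * SY := mul_le_mul_of_nonneg_right hu2 hSY
    have a2 : ((1 - η) * (hf * E)) ^ 2 ≤ Ph ^ 2 :=
      pow_le_pow_left₀ (mul_nonneg h1η (mul_nonneg hhf hE)) F2 2
    have a3 : (G - 2 * M * η) * ((1 - η) * (hf * E)) ^ 2 ≤ M * (kf ^ 2 * SY) :=
      (mul_le_mul_of_nonneg_left a2 hG).trans F1
    have a4 : (1 - 3 * η) ≤ (1 - η) ^ 3 := by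
      have h3η : 0 ≤ 3 - η := by linarith
      have := mul_nonneg (sq_nonneg η) h3η
      have e : (1 - η) ^ 3 = 1 - 3 * η + η ^ 2 * (3 - η) := by ring
      rw [e]
      linarith
    have a5 : G - (2 * M + 3 * G) * η ≤ (1 - η) ^ 3 * (G - 2 * M * η) := by
      have := mul_le_mul_of_nonneg_right a4 hG
      nlinarith [mul_nonneg hM0.le (sq_nonneg η)]
    have a6 : (G - (2 * M + 3 * G) * η) * lam ^ 2 ≤ (1 - η) ^ 3 * (G - 2 * M * η) * lam ^ 2 :=
      mul_le_mul_of_nonneg_right a5 (sq_nonneg _)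
    have a7 : kf ^ 2 * (C ^ 2 * ((1 - η) ^ 3 * (G - 2 * M * η) * lam ^ 2)) =
        (1 - η) * u ^ 2 * ((G - 2 * M * η) * ((1 - η) * (hf * E)) ^ 2) := by
      rw [← hCkf, hlamdef]; ring
    have a8 : (1 - η) * u ^ 2 * ((G - 2 * M * η) * ((1 - η) * (hf * E)) ^ 2) ≤
        (1 - η) * u ^ 2 * (M * (kf ^ 2 * SY)) :=
      mul_le_mul_of_nonneg_left a3 (mul_nonneg h1η (sq_nonneg _))
    have a9 : kf ^ 2 * (C ^ 2 * ((1 - η) ^ 3 * (G - 2 * M * η) * lam ^ 2)) ≤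
        kf ^ 2 * (u * ((1 - η) * (M * u) * SY)) := by
      rw [a7]
      refine a8.trans (le_of_eq ?_)
      ring
    have a10 := le_of_mul_le_mul_left a9 (by positivity)
    have a11 : u * ((1 - η) * (M * u) * SY) ≤ u * (u' * SY) := mul_le_mul_of_nonneg_left a1 hu.le
    have a12 := mul_le_mul_of_nonneg_left a6 (sq_nonneg C)
    linarith
  -- the error from the ends of the windows
  have m2 : u * (u' * (2 * ((L * M * (C * K0)) * Y))) ≤ C ^ 2 * (2 * L * M ^ 2 * K0 ^ 2 * u) := by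
    have b1 : u' * (2 * ((L * M * (C * K0)) * Y)) ≤ (M * u) * (2 * ((L * M * (C * K0)) * (C * E))) := by
      apply mul_le_mul hu1 _ (by positivity) hMu
      apply mul_le_mul_of_nonneg_left _ (by norm_num)
      exact mul_le_mul_of_nonneg_left F5 (by positivity)
    have b2 := mul_le_mul_of_nonneg_left b1 hu.le
    refine b2.trans ?_
    have b3 : u * ((M * u) * (2 * ((L * M * (C * K0)) * (C * E)))) =
        C ^ 2 * (2 * L * M ^ 2 * K0 * u) * lam := by rw [hlamdef]; ring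
    rw [b3]
    have b4 := mul_le_mul_of_nonneg_left hlam (by positivity : 0 ≤ C ^ 2 * (2 * L * M ^ 2 * K0 * u))
    refine b4.trans (le_of_eq ?_)
    ring
  -- the diagonal terms
  have e3 : (C - 1) * ((1 - 2 * η) * (C * lam)) ≤ u * (qh * ((C - 1) / kf)) := by
    have := mul_le_mul_of_nonneg_left F4 (mul_nonneg (by linarith : 0 ≤ C - 1) hu.le)
    calc (C - 1) * ((1 - 2 * η) * (C * lam)) = (C - 1) * u * ((1 - 2 * η) * (C * E)) := by
          rw [hlamdef]; ring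
      _ ≤ _ := this
      _ = _ := by ring
  have hcoef : 0 ≤ θ⁻¹ * (D * K0 / α) := by positivity
  have e4 : u * (θ⁻¹ * (D * K0 / α) * Ph) ≤ θ⁻¹ * (D * K0 ^ 2 * hf / α) := by
    have f1 : u * Ph ≤ hf * lam := by
      have := mul_le_mul_of_nonneg_left F3 hu.le
      rw [hlamdef]; linarith
    have f2 : hf * lam ≤ hf * K0 := mul_le_mul_of_nonneg_left hlam hhf
    have f3 := mul_le_mul_of_nonneg_left (f1.trans f2) hcoef
    calc u * (θ⁻¹ * (D * K0 / α) * Ph) = θ⁻¹ * (D * K0 / α) * (u * Ph) := by ring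
      _ ≤ θ⁻¹ * (D * K0 / α) * (hf * K0) := f3
      _ = _ := by ring
  have e5 := mul_le_mul_of_nonneg_left core hu.le
  have e7 : θ * C ^ 2 * (u * S2) ≤ θ * C ^ 2 * K0 ^ 2 :=
    mul_le_mul_of_nonneg_left hS2 (by positivity)
  have hmain : C ^ 2 * ((G - (2 * M + 3 * G) * η) * lam ^ 2) - C ^ 2 * (2 * L * M ^ 2 * K0 ^ 2 * u) +
      (C - 1) * ((1 - 2 * η) * (C * lam)) - θ⁻¹ * (D * K0 ^ 2 * hf / α) ≤
      C ^ 2 * (u * S2) + θ * C ^ 2 * K0 ^ 2 := by
    have e8 : u * (u' * SY) - u * (u' * (2 * ((L * M * (C * K0)) * Y))) + u * (qh * ((C - 1) / kf)) -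
        u * (θ⁻¹ * (D * K0 / α) * Ph) ≤ C ^ 2 * (u * S2) + θ * C ^ 2 * (u * S2) := by
      calc _ = u * (u' * (SY - 2 * ((L * M * (C * K0)) * Y)) + qh * ((C - 1) / kf) -
            θ⁻¹ * (D * K0 / α) * Ph) := by ring
        _ ≤ _ := e5
        _ = _ := by ring
    linarith
  have hX : 0 ≤ θ⁻¹ * (D * K0 ^ 2 * hf / α) := by positivity
  have b1 : lam ^ 2 ≤ K0 ^ 2 := pow_le_pow_left₀ hl0 hlam 2
  have b3 : lam ≤ K0 ^ 2 := hlam.trans (by rw [pow_two]; exact le_mul_of_one_le_left hK0'.le hK0)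
  have c1 : C ^ 2 * ((2 * M + 3 * G) * η * lam ^ 2) ≤ C ^ 2 * ((2 * M + 3 * G) * η * K0 ^ 2) :=
    mul_le_mul_of_nonneg_left (mul_le_mul_of_nonneg_left b1 (by positivity)) (sq_nonneg _)
  have c3 : 2 * η * ((C - 1) * C) * lam ≤ 2 * η * C ^ 2 * K0 ^ 2 := by
    have : 2 * η * ((C - 1) * C) ≤ 2 * η * C ^ 2 := by
      apply mul_le_mul_of_nonneg_left _ (by positivity)
      rw [pow_two]
      exact mul_le_mul_of_nonneg_right (by linarith) hC0.le
    calc _ ≤ 2 * η * C ^ 2 * lam := mul_le_mul_of_nonneg_right this hl0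
      _ ≤ _ := mul_le_mul_of_nonneg_left b3 (by positivity)
  have c4 : θ⁻¹ * (D * K0 ^ 2 * hf / α) ≤ C ^ 2 * (θ⁻¹ * (D * K0 ^ 2 * hf / α)) := by
    have : (1 : ℝ) ≤ C ^ 2 := one_le_pow₀ hC
    exact le_mul_of_one_le_left hX this
  have hfin : C ^ 2 * (G * lam ^ 2 + (1 - 1 / C) * lam -
      ((2 * M + 3 * G + 2) * η * K0 ^ 2 + 2 * L * M ^ 2 * K0 ^ 2 * u +
        θ⁻¹ * (D * K0 ^ 2 * hf / α) + θ * K0 ^ 2)) ≤ C ^ 2 * (u * S2) := by
    have g1 : C ^ 2 * (G * lam ^ 2 + (1 - 1 / C) * lam -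
      ((2 * M + 3 * G + 2) * η * K0 ^ 2 + 2 * L * M ^ 2 * K0 ^ 2 * u +
        θ⁻¹ * (D * K0 ^ 2 * hf / α) + θ * K0 ^ 2)) =
      C ^ 2 * (G * lam ^ 2) + (C - 1) * C * lam - C ^ 2 * ((2 * M + 3 * G) * η * K0 ^ 2) -
        2 * η * C ^ 2 * K0 ^ 2 - C ^ 2 * (2 * L * M ^ 2 * K0 ^ 2 * u)
        - C ^ 2 * (θ⁻¹ * (D * K0 ^ 2 * hf / α)) - θ * C ^ 2 * K0 ^ 2 := by
      field_simp
      ring
    rw [g1]
    have g3 : C ^ 2 * ((G - (2 * M + 3 * G) * η) * lam ^ 2) + (C - 1) * ((1 - 2 * η) * (C * lam)) =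
      C ^ 2 * (G * lam ^ 2) - C ^ 2 * ((2 * M + 3 * G) * η * lam ^ 2) +
        (C - 1) * C * lam - 2 * η * ((C - 1) * C) * lam := by ring
    linarith
  exact le_of_mul_le_mul_left hfin (by positivity)

/-- the law for finite sections -/
theorem fin_law (A : Set ℕ) (hA : A.Infinite) (k m : ℕ) (hmk : m ≤ k) (hm : 1 ≤ m) (K0 : ℕ)
    (hK : ∀ n, rep A (k + m) n ≤ K0) (M : ℕ) (hM : 0 < M) (G : ℝ) (hG : 1 ≤ G)
    (hloc : ∀ (T : ℕ) (x : ℝ), G * pp (FT A T) x ^ (2 * (k + m)) ≤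
      M * ∑ c ∈ range M, Zc (FT A T) x k m M c ^ 2) (ε : ℝ) (hε : 0 < ε) :
    ∀ᶠ x : ℝ in 𝓝[<] 1, ∀ᶠ T : ℕ in atTop,
      G * ((1 - x ^ 2) * EE (FT A T) x (k + m)) ^ 2 +
        (1 - 1 / ((k + m).choose m : ℝ)) * ((1 - x ^ 2) * EE (FT A T) x (k + m)) - ε ≤
      (1 - x ^ 2) * ∑ n ∈ range ((k + m) * T + 1), x ^ (2 * n) * (rM (FT A T) (k + m) n : ℝ) ^ 2 := by
  obtain ⟨g, hg⟩ : ∃ g, k + m = g + 2 := ⟨k + m - 2, by omega⟩
  obtain ⟨a0, ha0⟩ := hA.nonempty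
  set K : ℝ := (K0 : ℝ) + 1 with hKdef
  have hK1 : 1 ≤ K := by rw [hKdef]; have : (0 : ℝ) ≤ K0 := Nat.cast_nonneg _; linarith
  have hKpos : 0 < K := by linarith
  set C : ℝ := ((k + m).choose m : ℝ) with hC
  have hC1 : 1 ≤ C := by
    rw [hC]
    exact_mod_cast Nat.choose_pos (by omega : m ≤ k + m)
  set hf : ℝ := ((k + m).factorial : ℝ) with hhf
  have hhf0 : 0 < hf := by rw [hhf]; exact_mod_cast Nat.factorial_pos _
  set kf : ℝ := (k.factorial : ℝ) * (m.factorial : ℝ) with hkf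
  have hkf0 : 0 < kf := by
    rw [hkf]
    have h1 : (0 : ℝ) < (k.factorial : ℝ) := by exact_mod_cast Nat.factorial_pos _
    have h2 : (0 : ℝ) < (m.factorial : ℝ) := by exact_mod_cast Nat.factorial_pos _
    positivity
  have hCf : C = hf / kf := by
    rw [hC, hhf, hkf, Nat.cast_choose ℝ (by omega : m ≤ k + m)]
    rw [Nat.add_sub_cancel, mul_comm (m.factorial : ℝ)]
  have hCkf : C * kf = hf := by rw [hCf]; field_simp
  have hMr : (1 : ℝ) ≤ M := by exact_mod_cast hM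
  have hM0 : (0 : ℝ) < M := by linarith
  set D : ℝ := 4 * m ^ 2 * 4 ^ (k + m) * M ^ 2 with hD
  have hD0 : 0 ≤ D := by rw [hD]; positivity
  set θ : ℝ := ε / (4 * K ^ 2) with hθ
  have hθ0 : 0 < θ := by rw [hθ]; positivity
  set α : ℝ := 4 * (θ⁻¹ * (D * K ^ 2 * hf)) / ε + 1 with hα
  have hα0 : 0 < α := by
    rw [hα]
    have : 0 ≤ 4 * (θ⁻¹ * (D * K ^ 2 * hf)) / ε := by positivity
    linarith
  obtain ⟨N, hN⟩ := exists_many A hA α
  set L := N + 1 with hL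
  have hLpos : (0 : ℝ) < L := by rw [hL]; positivity
  set η : ℝ := min (ε / (4 * (2 * M + 3 * G + 2) * K ^ 2)) (1 / (2 * M)) with hη
  have hη0 : 0 < η := by rw [hη]; apply lt_min <;> positivity
  have hη1 : η ≤ 1 / (2 * M) := min_le_right _ _
  have hη2 : η ≤ ε / (4 * (2 * M + 3 * G + 2) * K ^ 2) := min_le_left _ _
  have hηM : 2 * M * η ≤ 1 := by
    have := mul_le_mul_of_nonneg_left hη1 (by positivity : (0 : ℝ) ≤ 2 * M)
    rwa [mul_one_div_cancel (by positivity)] at this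
  have hη1' : η ≤ 1 := by nlinarith
  set P1 : ℝ := max (((k + m : ℕ) : ℝ) ^ 2 / η) ((k + m : ℝ) + 1) with hP1
  obtain ⟨N1, hN1⟩ := pp_large A hA P1
  have hxη : ∀ᶠ x : ℝ in 𝓝[<] 1, 1 - η ≤ x ^ (2 * M) := by
    have h1 : Tendsto (fun x : ℝ => x ^ (2 * M)) (𝓝[<] 1) (𝓝 1) := by
      have := (continuous_pow (2 * M)).tendsto (1 : ℝ)
      rw [one_pow] at this
      exact this.mono_left nhdsWithin_le_nhds
    exact (h1.eventually (lt_mem_nhds (by linarith : 1 - η < 1))).mono fun x hx => hx.le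
  filter_upwards [eventually_Ioo, eventually_pow (L * M), eventually_pow (2 * N1),
    eventually_small (ε / (8 * K ^ 2 * L * M ^ 2)) (by positivity), hxη] with x hx hxL hxN hxu hxM
  obtain ⟨hx0, hx1⟩ := hx
  filter_upwards [eventually_ge_atTop (max N1 (max N a0))] with T hT
  have hTN1 : N1 ≤ T := le_trans (le_max_left _ _) hT
  have hTN : N ≤ T := le_trans (le_trans (le_max_left _ _) (le_max_right _ _)) hT
  have hTa : a0 ≤ T := le_trans (le_trans (le_max_right _ _) (le_max_right _ _)) hT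
  set F := FT A T with hF
  have hFT : ∀ a ∈ F, a ≤ T := fun a ha => (mem_FT.1 ha).2
  have hKF : ∀ n, rM F (k + m) n ≤ K0 + 1 := fun n =>
    ((rM_FT_le A T (k + m) n).trans (hK n)).trans (Nat.le_succ _)
  set P := pp F x with hP
  have hPP1 : P1 ≤ P := hN1 T hTN1 x hx0.le hx1.le hxN
  have hPa : ((k + m : ℕ) : ℝ) ^ 2 / η ≤ P := (le_max_left _ _).trans hPP1
  have hPh : (k + m : ℝ) + 1 ≤ P := (le_max_right _ _).trans hPP1
  have hP0 : 0 < P := by
    have : (0 : ℝ) ≤ k + m := by positivity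
    linarith
  set q := P - (k + m) with hq
  have hq1 : 1 ≤ q := by linarith
  have hηP : ((k + m : ℕ) : ℝ) ^ 2 / P ≤ η := by
    rw [div_le_iff₀ hP0]
    rw [div_le_iff₀ hη0] at hPa
    linarith
  set E := EE F x (k + m) with hE
  have hE0 : 0 ≤ E := EE_nonneg F x (k + m)
  have hu : 0 < 1 - x ^ 2 := by nlinarith
  -- P ^ h ≤ hf * E
  have h1 : P ^ (k + m) ≤ hf * E := by
    have := EE_ge F x hx0.le (k + m)
    rw [div_le_iff₀ hhf0] at this
    linarith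
  -- (1 - η) E ≤ P^h / hf
  have h1' : (1 - η) * E ≤ P ^ (k + m) / hf := by
    have h := EE_upper F x hx0 hx1.le g T hFT hP0
    rw [← hg] at h
    refine le_trans ?_ h
    exact mul_le_mul_of_nonneg_right (by linarith) hE0
  have h1'' : (1 - η) * (hf * E) ≤ P ^ (k + m) := by
    rw [le_div_iff₀ hhf0] at h1'
    linarith
  -- Bernoulli
  have hqh : (1 - η) * P ^ (k + m) ≤ q ^ (k + m) := by
    have hb := one_add_mul_le_pow (a := -((k + m : ℝ) / P)) (by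
      have : (k + m : ℝ) / P ≤ 1 := by rw [div_le_one hP0]; linarith
      linarith) (k + m)
    have e1 : q = (1 + -((k + m : ℝ) / P)) * P := by
      rw [hq]; field_simp; ring
    have e2 : 1 - ((k + m : ℕ) : ℝ) ^ 2 / P = 1 + ((k + m : ℕ) : ℝ) * -((k + m : ℝ) / P) := by
      push_cast; ring
    rw [e1, mul_pow]
    apply mul_le_mul_of_nonneg_right _ (by positivity)
    refine le_trans ?_ hb
    rw [← e2]
    linarith
  have hqf : (1 - 2 * η) * (hf * E) ≤ q ^ (k + m) := by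
    have h2 : (1 - η) * ((1 - η) * (hf * E)) ≤ (1 - η) * P ^ (k + m) :=
      mul_le_mul_of_nonneg_left h1'' (by linarith)
    have h3 : 0 ≤ η ^ 2 * (hf * E) := by positivity
    have e : (1 - η) * ((1 - η) * (hf * E)) = (1 - 2 * η) * (hf * E) + η ^ 2 * (hf * E) := by ring
    linarith
  have h2 : (1 - 2 * η) * (C * E) ≤ q ^ (k + m) / kf := by
    rw [le_div_iff₀ hkf0]
    calc (1 - 2 * η) * (C * E) * kf = (1 - 2 * η) * ((C * kf) * E) := by ring
      _ ≤ q ^ (k + m) := by rw [hCkf]; exact hqf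
  have hY : q ^ (k + m) / kf ≤ ee F x k * ee F x m := by
    have ha := ee_ge F x hx0.le hx1.le q (by linarith) k (by
      have : (0 : ℝ) ≤ m := Nat.cast_nonneg _
      rw [hq]; linarith)
    have hb := ee_ge F x hx0.le hx1.le q (by linarith) m (by
      have : (0 : ℝ) ≤ k := Nat.cast_nonneg _
      rw [hq]; linarith)
    calc q ^ (k + m) / kf = (q ^ k / (k.factorial : ℝ)) * (q ^ m / (m.factorial : ℝ)) := by
          rw [hkf, pow_add]; field_simp
      _ ≤ _ := mul_le_mul ha hb (by positivity) (ee_nonneg F x hx0.le k)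
  have hYn : 0 ≤ ee F x k * ee F x m := mul_nonneg (ee_nonneg F x hx0.le k) (ee_nonneg F x hx0.le m)
  have hYu : ee F x k * ee F x m ≤ C * E := by
    have ha := ee_le F x hx0.le k
    have hb := ee_le F x hx0.le m
    have h3 : ee F x k * ee F x m ≤ P ^ (k + m) / kf := by
      calc ee F x k * ee F x m ≤ (P ^ k / (k.factorial : ℝ)) * (P ^ m / (m.factorial : ℝ)) :=
            mul_le_mul ha hb (ee_nonneg F x hx0.le m) (by positivity)
        _ = _ := by rw [hkf, pow_add]; field_simp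
    refine h3.trans ?_
    rw [div_le_iff₀ hkf0]
    calc P ^ (k + m) ≤ hf * E := h1
      _ = C * E * kf := by rw [← hCkf]; ring
  -- the local energy
  have hYc := Yc_sq_ge F hx0.le k m M hM G η (hloc T x) (by
    rw [← hkf, ← hP]
    rw [div_le_iff₀ hkf0] at hY
    linarith)
  rw [← hkf, ← hP] at hYc
  set SY := ∑ c ∈ range M, Yc F x k m M c ^ 2 with hSY
  have hSY0 : 0 ≤ SY := Finset.sum_nonneg fun _ _ => sq_nonneg _
  have hcore := core F k m hmk x hx0 hx1 T hFT (K0 + 1) hKF L (by omega) M hM hxL a0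
    (mem_FT.2 ⟨ha0, hTa⟩) α hα0 (by
      refine hN.trans ?_
      have : (FT A N) ⊆ F.filter (fun c => c < L) := by
        intro a ha
        rw [mem_FT] at ha
        rw [Finset.mem_filter, hF, mem_FT]
        exact ⟨⟨ha.1, by omega⟩, by omega⟩
      exact_mod_cast Finset.card_le_card this) θ hθ0 (by rw [← hP]; linarith)
  set S2 := ∑ n ∈ range ((k + m) * T + 1), x ^ (2 * n) * (rM F (k + m) n : ℝ) ^ 2 with hS2
  have hS2le : (1 - x ^ 2) * S2 ≤ K ^ 2 := by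
    have h5 : S2 ≤ K ^ 2 * (1 - x ^ 2)⁻¹ := by
      calc S2 ≤ ∑ n ∈ range ((k + m) * T + 1), K ^ 2 * x ^ (2 * n) := by
            rw [hS2]
            apply Finset.sum_le_sum
            intro n _
            rw [mul_comm]
            apply mul_le_mul_of_nonneg_right _ (by positivity)
            apply pow_le_pow_left₀ (Nat.cast_nonneg _)
            rw [hKdef]
            exact_mod_cast hKF n
        _ ≤ _ := by
            rw [← Finset.mul_sum]
            exact mul_le_mul_of_nonneg_left (geom_le x hx0 hx1 _) (by positivity)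
    calc (1 - x ^ 2) * S2 ≤ (1 - x ^ 2) * (K ^ 2 * (1 - x ^ 2)⁻¹) :=
          mul_le_mul_of_nonneg_left h5 hu.le
      _ = K ^ 2 := by field_simp
  have hlam : (1 - x ^ 2) * E ≤ K := by
    have h5 := EE_le F x hx0 hx1 (k + m) (K0 + 1) hKF
    calc (1 - x ^ 2) * E ≤ (1 - x ^ 2) * (((K0 + 1 : ℕ) : ℝ) * (1 - x ^ 2)⁻¹) :=
          mul_le_mul_of_nonneg_left h5 hu.le
      _ = K := by rw [hKdef]; push_cast; field_simp
  -- comparison of `1 - x ^ (2 M)` and `M (1 - x ^ 2)`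
  have hgs : 1 - x ^ (2 * M) = (1 - x ^ 2) * ∑ i ∈ range M, (x ^ 2) ^ i := by
    rw [pow_mul]
    exact (mul_neg_geom_sum (x ^ 2) M).symm
  have hx20 : (0 : ℝ) ≤ x ^ 2 := by positivity
  have hx21 : x ^ 2 ≤ 1 := by nlinarith
  have hu1 : 1 - x ^ (2 * M) ≤ M * (1 - x ^ 2) := by
    rw [hgs, mul_comm]
    apply mul_le_mul_of_nonneg_right _ hu.le
    calc ∑ i ∈ range M, (x ^ 2) ^ i ≤ ∑ i ∈ range M, (1 : ℝ) :=
          Finset.sum_le_sum fun i _ => pow_le_one₀ hx20 hx21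
      _ = M := by rw [Finset.sum_const, card_range, nsmul_eq_mul, mul_one]
  have hu2 : (1 - η) * (M * (1 - x ^ 2)) ≤ 1 - x ^ (2 * M) := by
    rw [hgs]
    have h5 : (1 - η) * M ≤ ∑ i ∈ range M, (x ^ 2) ^ i := by
      calc (1 - η) * M = ∑ i ∈ range M, (1 - η) := by
            rw [Finset.sum_const, card_range, nsmul_eq_mul]; ring
        _ ≤ _ := by
            apply Finset.sum_le_sum
            intro i hi
            rw [Finset.mem_range] at hi
            refine hxM.trans ?_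
            rw [pow_mul]
            exact pow_le_pow_of_le_one hx20 hx21 hi.le
    calc (1 - η) * (M * (1 - x ^ 2)) = (1 - x ^ 2) * ((1 - η) * M) := by ring
      _ ≤ _ := mul_le_mul_of_nonneg_left h5 hu.le
  have hfinal := law_alg (1 - x ^ 2) (1 - x ^ (2 * M)) E (ee F x k * ee F x m) SY S2 (q ^ (k + m))
    (P ^ (k + m)) C K hf kf L θ α D η G M hu hu1 hu2 hMr hC1 hK1 hE0 (Nat.cast_nonneg _) hθ0 hα0 hD0
    hη0.le hη1' hhf0.le hkf0 hCkf hSY0 (by linarith) (by linarith) (by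
      rw [← pow_mul, mul_comm (k + m) 2]; exact hYc) h1'' h1 h2 hYu hYn
    (by
      push_cast at hcore
      rw [← hC, ← hKdef, ← hkf, ← hP] at hcore
      exact hcore) hS2le hlam
  -- error
  have hcM : (0 : ℝ) < 2 * M + 3 * G + 2 := by positivity
  have e1 : (2 * M + 3 * G + 2) * η * K ^ 2 ≤ ε / 4 := by
    calc (2 * M + 3 * G + 2) * η * K ^ 2
        ≤ (2 * M + 3 * G + 2) * (ε / (4 * (2 * M + 3 * G + 2) * K ^ 2)) * K ^ 2 := by gcongr
      _ = ε / 4 := by field_simp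
  have e2 : 2 * L * M ^ 2 * K ^ 2 * (1 - x ^ 2) ≤ ε / 4 := by
    calc 2 * L * M ^ 2 * K ^ 2 * (1 - x ^ 2)
        ≤ 2 * L * M ^ 2 * K ^ 2 * (ε / (8 * K ^ 2 * L * M ^ 2)) := by gcongr
      _ = ε / 4 := by field_simp; norm_num
  have e3 : θ⁻¹ * (D * K ^ 2 * hf / α) ≤ ε / 4 := by
    rw [← mul_div_assoc, div_le_iff₀ hα0, hα]
    have : ε / 4 * (4 * (θ⁻¹ * (D * K ^ 2 * hf)) / ε + 1) = θ⁻¹ * (D * K ^ 2 * hf) + ε / 4 := by
      field_simp
    rw [this]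
    linarith
  have e4 : θ * K ^ 2 = ε / 4 := by
    rw [hθ]; field_simp
  linarith

/-- the variance law -/
theorem law (A : Set ℕ) (hA : A.Infinite) (k m : ℕ) (hmk : m ≤ k) (hm : 1 ≤ m) (K0 : ℕ)
    (hK : ∀ n, rep A (k + m) n ≤ K0) (M : ℕ) (hM : 0 < M) (G : ℝ) (hG : 1 ≤ G)
    (hloc : ∀ (T : ℕ) (x : ℝ), G * pp (FT A T) x ^ (2 * (k + m)) ≤
      M * ∑ c ∈ range M, Zc (FT A T) x k m M c ^ 2) (ε : ℝ) (hε : 0 < ε) :
    ∀ᶠ q : ℝ in 𝓝[<] 1, G * (M1 A (k + m) q) ^ 2 +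
      (1 - 1 / ((k + m).choose m : ℝ)) * M1 A (k + m) q - ε ≤ M2 A (k + m) q := by
  have h1 := fin_law A hA k m hmk hm K0 hK M hM G hG hloc ε hε
  have h2 : ∀ᶠ x : ℝ in 𝓝[<] 1, G * (M1 A (k + m) (x ^ 2)) ^ 2 +
      (1 - 1 / ((k + m).choose m : ℝ)) * M1 A (k + m) (x ^ 2) - ε ≤ M2 A (k + m) (x ^ 2) := by
    filter_upwards [h1, eventually_Ioo] with x hx hx01
    have t1 := tendsto_EE A (k + m) K0 hK x hx01.1 hx01.2
    have t2 : Tendsto (fun T : ℕ => (1 - x ^ 2) *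
        ∑ n ∈ range ((k + m) * T + 1), x ^ (2 * n) * (rM (FT A T) (k + m) n : ℝ) ^ 2) atTop
        (𝓝 (M2 A (k + m) (x ^ 2))) :=
      (tendsto_sections A (k + m) K0 hK 2 two_ne_zero x hx01.1 hx01.2).const_mul _
    exact le_of_tendsto_of_tendsto ((((t1.pow 2).const_mul G).add (t1.const_mul _)).sub_const ε) t2 hx
  have h3 : Tendsto (fun q : ℝ => √q) (𝓝[<] 1) (𝓝[<] 1) := by
    rw [tendsto_nhdsWithin_iff]
    constructor
    · have := Real.continuous_sqrt.tendsto (1 : ℝ)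
      rw [Real.sqrt_one] at this
      exact this.mono_left nhdsWithin_le_nhds
    · filter_upwards [self_mem_nhdsWithin] with q hq
      rw [Set.mem_Iio] at hq ⊢
      rw [Real.sqrt_lt' one_pos]
      simpa using hq
  filter_upwards [h3.eventually h2, eventually_Ioo] with q hq hq01
  rw [Real.sq_sqrt hq01.1.le] at hq
  exact hq

end Pool.Agent.Q146.LV
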