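import Mathlib
import Pool.Agent.Q146.LV.Law
import Pool.Agent.TH854.BV.Growth

set_option autoImplicit false

open Finset Filter Topology

namespace Pool.Agent.Q146.LV

open Pool.Agent.TH854.BV Pool.Agent.H396R2 Pool.Agent.TH314.ET

theorem rset_finite (A : Set ℕ) {q : ℕ} (hq : 0 < q) : ((fun a => a % q) '' A).Finite := by
  apply (Set.finite_Iio q).subset
  rintro _ ⟨a, _, rfl⟩
  exact Nat.mod_lt a hq

/-- the local energy of the finite sections -/
theorem local_energy (A : Set ℕ) (hA : A.Nonempty) (k m : ℕ) (hm : 1 ≤ m) (Q : Finset ℕ)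
    (hQ : ∀ q ∈ Q, 2 ≤ q) (hco : ∀ q ∈ Q, ∀ q' ∈ Q, q ≠ q' → q.Coprime q') (T : ℕ) (x : ℝ) :
    (∏ q ∈ Q, fac (k + m - 1) q (((fun a => a % q) '' A).ncard : ℕ)) *
      pp (FT A T) x ^ (2 * (k + m)) ≤
      (∏ q ∈ Q, q : ℕ) * ∑ c ∈ range (∏ q ∈ Q, q), Zc (FT A T) x k m (∏ q ∈ Q, q) c ^ 2 := by
  classical
  set M := ∏ q ∈ Q, q with hM
  have hM0 : 0 < M := Finset.prod_pos fun q hq => by have := hQ q hq; omega
  set R : ℕ → Finset ℕ := fun q => if h : 0 < q then (rset_finite A h).toFinset else ∅ with hR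
  have hRc : ∀ q ∈ Q, (R q).card = ((fun a => a % q) '' A).ncard := by
    intro q hq
    have hq0 : 0 < q := by have := hQ q hq; omega
    simp only [hR, dif_pos hq0]
    rw [Set.ncard_eq_toFinset_card _ (rset_finite A hq0)]
  have hR1 : ∀ q ∈ Q, 2 ≤ q ∧ (∀ n, wt (FT A T) x n ≠ 0 → n % q ∈ R q) ∧ 0 < (R q).card ∧
      (R q).card ≤ q := by
    intro q hq
    have hq0 : 0 < q := by have := hQ q hq; omega
    refine ⟨hQ q hq, ?_, ?_, ?_⟩
    · intro n hn
      simp only [hR, dif_pos hq0]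
      rw [Set.Finite.mem_toFinset]
      refine ⟨n, ?_, rfl⟩
      by_contra h
      refine hn ?_
      unfold wt
      rw [if_neg (fun h' => h (mem_FT.1 h').1)]
    · simp only [hR, dif_pos hq0]
      rw [Finset.card_pos]
      obtain ⟨a, ha⟩ := hA
      exact ⟨a % q, (rset_finite A hq0).mem_toFinset.2 ⟨a, ha, rfl⟩⟩
    · simp only [hR, dif_pos hq0]
      have : (rset_finite A hq0).toFinset ⊆ range q := by
        intro x hx
        obtain ⟨a, _, rfl⟩ := (Set.Finite.mem_toFinset _).1 hx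
        exact mem_range.2 (Nat.mod_lt a hq0)
      exact (Finset.card_le_card this).trans (card_range q).le
  have h2 := all_mod (wt_summable (FT A T) x) (k + m - 1) R Q hR1 hco 0
  rw [Nat.sub_add_cancel (by omega : 1 ≤ k + m), Sf_wt_zero, Complex.norm_real, Real.norm_eq_abs,
    abs_of_nonneg (pp_nonneg _ _), ← hM, sum_Zc_sq (FT A T) x k m M hM0] at h2
  refine le_trans (le_of_eq ?_) h2
  congr 1
  exact Finset.prod_congr rfl fun q hq => by rw [hRc q hq]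

/-- the mean of a bounded representation function -/
theorem mean_le (A : Set ℕ) (hA : A.Infinite) (k m : ℕ) (hmk : m ≤ k) (hm : 1 ≤ m) (g n₀ : ℕ)
    (hg1 : 1 ≤ g) (hg : ∀ n, n₀ ≤ n → rep A (k + m) n ≤ g) (M : ℕ) (hM : 0 < M) (G : ℝ) (hG : 1 ≤ G)
    (hloc : ∀ (T : ℕ) (x : ℝ), G * pp (FT A T) x ^ (2 * (k + m)) ≤
      M * ∑ c ∈ range M, Zc (FT A T) x k m M c ^ 2) (ε : ℝ) (hε : 0 < ε) :
    ∀ᶠ q : ℝ in 𝓝[<] 1, G * M1 A (k + m) q ≤ g - 1 + 1 / ((k + m).choose m : ℝ) + ε := by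
  obtain ⟨K0, hK⟩ := bounded_of_eventually A (k + m) g n₀ hg
  have hG0 : 0 < G := by linarith
  have h1 := law A hA k m hmk hm K0 hK M hM G hG hloc (ε ^ 2 / (3 * G)) (by positivity)
  have h2 : ∀ᶠ q : ℝ in 𝓝[<] 1, (1 - q) * (n₀ * (K0 : ℝ) ^ 2) ≤ ε ^ 2 / (3 * G) := by
    have t : Tendsto (fun q : ℝ => (1 - q) * (n₀ * (K0 : ℝ) ^ 2)) (𝓝[<] 1) (𝓝 0) := by
      have : Tendsto (fun q : ℝ => (1 - q) * (n₀ * (K0 : ℝ) ^ 2)) (𝓝 1)
          (𝓝 ((1 - 1) * (n₀ * (K0 : ℝ) ^ 2))) :=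
        ((continuous_const.sub continuous_id).mul continuous_const).tendsto (1 : ℝ)
      rw [sub_self, zero_mul] at this
      exact this.mono_left nhdsWithin_le_nhds
    exact (t.eventually (gt_mem_nhds (by positivity))).mono fun x hx => hx.le
  filter_upwards [h1, h2, eventually_Ioo] with q hq1 hq2 hq01
  have h3 := M2_le A (k + m) K0 g n₀ hK hg q hq01.1.le hq01.2
  have h4 := M1_nonneg A (k + m) q hq01.1.le hq01.2.le
  set lam := M1 A (k + m) q
  set c := 1 / ((k + m).choose m : ℝ) with hc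
  have hc0 : 0 ≤ c := by rw [hc]; positivity
  have hg1' : (1 : ℝ) ≤ g := by exact_mod_cast hg1
  by_contra hcon
  rw [not_le] at hcon
  have h5 : lam * (G * lam - (g - 1 + c)) ≤ 2 * (ε ^ 2 / (3 * G)) := by nlinarith
  have h6 : ε * ε ≤ (G * lam) * (G * lam - (g - 1 + c)) :=
    mul_le_mul (by linarith) (by linarith) hε.le (mul_nonneg hG0.le h4)
  have h7 := mul_le_mul_of_nonneg_left h5 hG0.le
  have h8 : G * (2 * (ε ^ 2 / (3 * G))) = 2 * ε ^ 2 / 3 := by field_simp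
  rw [h8] at h7
  nlinarith [sq_nonneg ε]

/-- **Growth**, from a bound for the mean. -/
theorem growth_of_mean (A : Set ℕ) (h : ℕ) (hh0 : 0 < h) (K0 : ℕ) (hK : ∀ n, rep A h n ≤ K0) (b : ℝ)
    (hb : ∀ ε : ℝ, 0 < ε → ∀ᶠ q : ℝ in 𝓝[<] 1, M1 A h q ≤ b + ε) (c : ℝ) (hc : 0 ≤ c) (n₁ : ℕ)
    (hAc : ∀ n : ℕ, n₁ ≤ n → c * (n : ℝ) ^ ((h : ℝ)⁻¹) ≤ ((FT A n).card : ℝ)) :
    (c * Real.Gamma ((h : ℝ)⁻¹ + 1)) ^ h ≤ (h.factorial : ℝ) * b := by
  set s : ℝ := (h : ℝ)⁻¹ with hs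
  have hs0 : 0 < s := by rw [hs]; positivity
  set N : ℝ := n₁ * (n₁ : ℝ) ^ s with hN
  -- the scaled lower bound
  have t1 : Tendsto (fun q : ℝ => c * (q * (((1 - q) * (1 / (-Real.log q))) ^ (s + 1) *
      Real.Gamma (s + 1)) - N * (1 - q) ^ (s + 1))) (𝓝[<] 1) (𝓝 (c * (1 * ((1 : ℝ) ^ (s + 1) *
      Real.Gamma (s + 1)) - N * (0 : ℝ) ^ (s + 1)))) := by
    have a1 : Tendsto (fun q : ℝ => q) (𝓝[<] 1) (𝓝 (1 : ℝ)) :=
      tendsto_id.mono_left nhdsWithin_le_nhds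
    have a2 : Tendsto (fun q : ℝ => 1 - q) (𝓝[<] 1) (𝓝 (0 : ℝ)) := by
      have := a1.const_sub 1
      rwa [sub_self] at this
    have a3 := tendsto_ratio.rpow_const (p := s + 1) (Or.inl one_ne_zero)
    have a4 := a2.rpow_const (p := s + 1) (Or.inr (by linarith))
    exact ((a1.mul (a3.mul_const _)).sub (a4.const_mul _)).const_mul _
  rw [Real.one_rpow, Real.zero_rpow (by linarith), mul_zero, sub_zero, one_mul, one_mul] at t1
  have t2 := (t1.max (tendsto_const_nhds (x := (0 : ℝ)))).pow h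
  have hG : 0 ≤ c * Real.Gamma (s + 1) := mul_nonneg hc (Real.Gamma_pos_of_pos (by linarith)).le
  rw [max_eq_left hG] at t2
  have key : ∀ ε : ℝ, 0 < ε → (c * Real.Gamma (s + 1)) ^ h ≤ (h.factorial : ℝ) * (b + ε) := by
    intro ε hε
    have h1 := hb ε hε
    refine le_of_tendsto t2 ?_
    filter_upwards [h1, eventually_Ioo] with q hq hq01
    obtain ⟨hq0, hq1⟩ := hq01
    have hlog : 0 < -Real.log q := by
      have := Real.log_neg hq0 hq1
      linarith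
    have hx2 : (√q) ^ 2 = q := Real.sq_sqrt hq0.le
    have hx1 : √q < 1 := by
      rw [Real.sqrt_lt' one_pos]; simpa using hq1
    have h2 := M1_ge A h K0 n₁ hK s c (-Real.log q) (√q) hs0 hc hlog (Real.sqrt_pos.2 hq0) hx1
      (by rw [hx2, neg_neg, Real.exp_log hq0]) hAc
    rw [hx2, neg_neg, Real.exp_log hq0] at h2
    have hf : (0 : ℝ) ≤ (h.factorial : ℝ) := Nat.cast_nonneg _
    refine le_trans ?_ (h2.trans (mul_le_mul_of_nonneg_left hq hf))
    apply le_of_eq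
    have h1q : 0 ≤ 1 - q := by linarith
    have e1 : 1 - q = ((1 - q) ^ s) ^ h := by
      rw [hs, Real.rpow_inv_natCast_pow h1q (by omega)]
    have e2 : c * (q * (((1 - q) * (1 / (-Real.log q))) ^ (s + 1) *
      Real.Gamma (s + 1)) - N * (1 - q) ^ (s + 1)) = (1 - q) ^ s *
        ((1 - q) * (c * (q * ((1 / (-Real.log q)) ^ (s + 1) * Real.Gamma (s + 1)) - N))) := by
      rw [Real.mul_rpow h1q (by positivity), Real.rpow_add_one' h1q (by linarith)]
      ring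
    have e3 : ∀ V : ℝ, (max ((1 - q) ^ s * V) 0) ^ h = (1 - q) * (max V 0) ^ h := by
      intro V
      calc (max ((1 - q) ^ s * V) 0) ^ h = ((1 - q) ^ s * max V 0) ^ h := by
            rw [mul_max_of_nonneg _ _ (by positivity), mul_zero]
        _ = ((1 - q) ^ s) ^ h * (max V 0) ^ h := mul_pow _ _ _
        _ = _ := by rw [← e1]
    rw [e2, e3]
  have t3 : Tendsto (fun ε : ℝ => (h.factorial : ℝ) * (b + ε)) (𝓝[>] 0)
      (𝓝 ((h.factorial : ℝ) * (b + 0))) := by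
    apply Tendsto.const_mul
    apply Tendsto.const_add
    exact tendsto_id.mono_left nhdsWithin_le_nhds
  rw [add_zero] at t3
  refine ge_of_tendsto t3 ?_
  filter_upwards [self_mem_nhdsWithin] with ε hε
  exact key ε hε

/-- lower bound for the mean if `r ≥ l` from `n₀` on -/
lemma M1_ge_of_le (A : Set ℕ) (h K0 l n₀ : ℕ) (hK : ∀ n, rep A h n ≤ K0)
    (hl : ∀ n, n₀ ≤ n → l ≤ rep A h n) (q : ℝ) (hq0 : 0 ≤ q) (hq1 : q < 1) :
    l * q ^ n₀ ≤ M1 A h q := by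
  unfold M1
  have hs := summable_rep A h K0 hK 1 q hq0 hq1
  simp only [pow_one] at hs
  have hg : Summable fun n : ℕ => if n₀ ≤ n then (l : ℝ) * q ^ n else 0 := by
    refine Summable.of_nonneg_of_le (fun n => ?_) (fun n => ?_)
      ((summable_geometric_of_lt_one hq0 hq1).mul_left (l : ℝ))
    · split_ifs <;> positivity
    · split_ifs
      · exact le_refl _
      · positivity
  have h1 : ∑' n : ℕ, (if n₀ ≤ n then (l : ℝ) * q ^ n else 0) ≤ ∑' n : ℕ, q ^ n * (rep A h n : ℝ) := by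
    refine hg.tsum_le_tsum (fun n => ?_) hs
    split_ifs with hn
    · rw [mul_comm]
      apply mul_le_mul_of_nonneg_left _ (by positivity)
      exact_mod_cast hl n hn
    · positivity
  have h2 : ∑' n : ℕ, (if n₀ ≤ n then (l : ℝ) * q ^ n else 0) = l * q ^ n₀ * (1 - q)⁻¹ := by
    have h3 := hg.sum_add_tsum_nat_add n₀
    rw [← h3, Finset.sum_eq_zero (fun i hi => if_neg (by have := Finset.mem_range.1 hi; omega)),
      zero_add]
    have h4 : ∀ i : ℕ, (if n₀ ≤ i + n₀ then (l : ℝ) * q ^ (i + n₀) else 0) =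
        (l * q ^ n₀) * q ^ i := by
      intro i
      rw [if_pos (by omega), pow_add]
      ring
    simp_rw [h4]
    rw [tsum_mul_left, tsum_geometric_of_lt_one hq0 hq1]
  rw [h2] at h1
  have h3 : 0 < 1 - q := by linarith
  calc l * q ^ n₀ = (1 - q) * (l * q ^ n₀ * (1 - q)⁻¹) := by field_simp
    _ ≤ _ := mul_le_mul_of_nonneg_left h1 h3.le

/-- `r ^ 2 ≤ (l + g) r - l g` if `l ≤ r ≤ g` -/
lemma M2_le_two (A : Set ℕ) (h K0 l g n₀ : ℕ) (hK : ∀ n, rep A h n ≤ K0)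
    (hg : ∀ n, n₀ ≤ n → l ≤ rep A h n ∧ rep A h n ≤ g) (q : ℝ) (hq0 : 0 ≤ q) (hq1 : q < 1) :
    M2 A h q ≤ (l + g) * M1 A h q - l * g + (1 - q) * (n₀ * ((K0 : ℝ) ^ 2 + l * g)) := by
  unfold M2 M1
  have h1 := summable_rep A h K0 hK 1 q hq0 hq1
  simp only [pow_one] at h1
  have h2 := summable_rep A h K0 hK 2 q hq0 hq1
  have hgeo := (summable_geometric_of_lt_one hq0 hq1).mul_left ((l : ℝ) * g)
  have h3 : Summable (fun n : ℕ => if n < n₀ then ((K0 : ℝ) ^ 2 + l * g) else 0) := by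
    apply summable_of_ne_finset_zero (s := range n₀)
    intro n hn
    rw [Finset.mem_range] at hn
    rw [if_neg hn]
  have h4 : ∑' n : ℕ, (if n < n₀ then ((K0 : ℝ) ^ 2 + l * g) else 0) =
      n₀ * ((K0 : ℝ) ^ 2 + l * g) := by
    rw [tsum_eq_sum (s := range n₀)]
    · rw [Finset.sum_congr rfl (g := fun _ => ((K0 : ℝ) ^ 2 + l * g))]
      · rw [Finset.sum_const, card_range, nsmul_eq_mul]
      · intro n hn
        rw [Finset.mem_range] at hn
        rw [if_pos hn]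
    · intro n hn
      rw [Finset.mem_range] at hn
      rw [if_neg hn]
  have hS : Summable (fun n : ℕ => ((l + g : ℝ) * (q ^ n * (rep A h n : ℝ)) - (l * g : ℝ) * q ^ n)) :=
    (h1.mul_left _).sub hgeo
  have h5 : ∑' n : ℕ, q ^ n * (rep A h n : ℝ) ^ 2 ≤
      ∑' n : ℕ, (((l + g : ℝ) * (q ^ n * (rep A h n : ℝ)) - (l * g : ℝ) * q ^ n) +
        if n < n₀ then ((K0 : ℝ) ^ 2 + l * g) else 0) := by
    apply Summable.tsum_le_tsum _ h2 (hS.add h3)
    intro n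
    have hqn : 0 ≤ q ^ n := by positivity
    have hqn1 : q ^ n ≤ 1 := pow_le_one₀ hq0 hq1.le
    by_cases hn : n < n₀
    · rw [if_pos hn]
      have e1 : q ^ n * (rep A h n : ℝ) ^ 2 ≤ 1 * (K0 : ℝ) ^ 2 := by
        apply mul_le_mul hqn1 _ (by positivity) zero_le_one
        apply pow_le_pow_left₀ (Nat.cast_nonneg _)
        exact_mod_cast hK n
      have e2 : 0 ≤ (l + g : ℝ) * (q ^ n * (rep A h n : ℝ)) := by positivity
      have e3 : (l * g : ℝ) * q ^ n ≤ l * g := mul_le_of_le_one_right (by positivity) hqn1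
      linarith
    · rw [if_neg hn, add_zero]
      obtain ⟨g1, g2⟩ := hg n (by omega)
      have g1' : (l : ℝ) ≤ rep A h n := by exact_mod_cast g1
      have g2' : (rep A h n : ℝ) ≤ g := by exact_mod_cast g2
      have e1 : 0 ≤ q ^ n * (((rep A h n : ℝ) - l) * (g - (rep A h n : ℝ))) :=
        mul_nonneg hqn (mul_nonneg (by linarith) (by linarith))
      have e2 : q ^ n * (((rep A h n : ℝ) - l) * (g - (rep A h n : ℝ))) =
          ((l + g : ℝ) * (q ^ n * (rep A h n : ℝ)) - (l * g : ℝ) * q ^ n) -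
            q ^ n * (rep A h n : ℝ) ^ 2 := by ring
      linarith
  rw [Summable.tsum_add hS h3, h4, (h1.mul_left _).tsum_sub hgeo, tsum_mul_left, tsum_mul_left,
    tsum_geometric_of_lt_one hq0 hq1] at h5
  have h6 : 0 < 1 - q := by linarith
  calc (1 - q) * ∑' n : ℕ, q ^ n * (rep A h n : ℝ) ^ 2
      ≤ (1 - q) * ((l + g) * ∑' n : ℕ, q ^ n * (rep A h n : ℝ) - l * g * (1 - q)⁻¹ +
          n₀ * ((K0 : ℝ) ^ 2 + l * g)) := mul_le_mul_of_nonneg_left h5 h6.le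
    _ = _ := by field_simp

/-- the two bounds of a bounded representation function of a basis -/
theorem two_bounds (A : Set ℕ) (hA : A.Infinite) (k m : ℕ) (hmk : m ≤ k) (hm : 1 ≤ m) (l g n₀ : ℕ)
    (hl1 : 1 ≤ l) (hg : ∀ n, n₀ ≤ n → l ≤ rep A (k + m) n ∧ rep A (k + m) n ≤ g) (M : ℕ) (hM : 0 < M)
    (G : ℝ) (hG : 1 ≤ G)
    (hloc : ∀ (T : ℕ) (x : ℝ), G * pp (FT A T) x ^ (2 * (k + m)) ≤
      M * ∑ c ∈ range M, Zc (FT A T) x k m M c ^ 2) :
    2 * √(G * l * g) ≤ l + g - (1 - 1 / ((k + m).choose m : ℝ)) := by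
  obtain ⟨K0, hK⟩ := bounded_of_eventually A (k + m) g n₀ (fun n hn => (hg n hn).2)
  set th := 1 - 1 / ((k + m).choose m : ℝ) with hth
  apply le_of_forall_pos_le_add
  intro ε hε
  have hl1' : (1 : ℝ) ≤ l := by exact_mod_cast hl1
  have h1 := law A hA k m hmk hm K0 hK M hM G hG hloc (ε / 4) (by positivity)
  have h2 : ∀ᶠ q : ℝ in 𝓝[<] 1, (1 - q) * (n₀ * ((K0 : ℝ) ^ 2 + l * g)) ≤ ε / 4 := by
    have t : Tendsto (fun q : ℝ => (1 - q) * (n₀ * ((K0 : ℝ) ^ 2 + l * g))) (𝓝[<] 1) (𝓝 0) := by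
      have : Tendsto (fun q : ℝ => (1 - q) * (n₀ * ((K0 : ℝ) ^ 2 + l * g))) (𝓝 1)
          (𝓝 ((1 - 1) * (n₀ * ((K0 : ℝ) ^ 2 + l * g)))) :=
        ((continuous_const.sub continuous_id).mul continuous_const).tendsto (1 : ℝ)
      rw [sub_self, zero_mul] at this
      exact this.mono_left nhdsWithin_le_nhds
    exact (t.eventually (gt_mem_nhds (by positivity))).mono fun x hx => hx.le
  have h3 := eventually_pow n₀
  obtain ⟨q, hq1, hq2, hq3, hq01⟩ := (h1.and (h2.and (h3.and eventually_Ioo))).exists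
  have h4 := M2_le_two A (k + m) K0 l g n₀ hK hg q hq01.1.le hq01.2
  have h5 := M1_ge_of_le A (k + m) K0 l n₀ hK (fun n hn => (hg n hn).1) q hq01.1.le hq01.2
  set lam := M1 A (k + m) q
  have hlam : 1 / 2 ≤ lam := by nlinarith
  have hG0 : 0 ≤ G := by linarith
  -- arithmetic-geometric mean
  have h6 : 2 * √(G * l * g) * lam ≤ G * lam ^ 2 + l * g := by
    have e1 : √(G * l * g) = √G * √((l : ℝ) * g) := by
      rw [mul_assoc, Real.sqrt_mul hG0]
    have e2 : (√G) ^ 2 = G := Real.sq_sqrt hG0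
    have e3 : (√((l : ℝ) * g)) ^ 2 = l * g := Real.sq_sqrt (by positivity)
    rw [e1]
    nlinarith [sq_nonneg (√G * lam - √((l : ℝ) * g))]
  have h7 : lam * (2 * √(G * l * g) - (l + g - th)) ≤ ε / 2 := by nlinarith
  by_contra hcon
  rw [not_le] at hcon
  have h8 : ε < 2 * √(G * l * g) - (l + g - th) := by linarith
  have h9 : 1 / 2 * ε < lam * (2 * √(G * l * g) - (l + g - th)) :=
    mul_lt_mul' hlam h8 hε.le (by linarith)
  linarith

end Pool.Agent.Q146.LV
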